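import Pool.Agent.Lib.MP_5b98da_lc.Defs

/-!
A sufficient condition for equitable 2-choosability of disjoint unions of stars.
-/

namespace Pool.Agent.Lib.MP_5b98da_lc

open Finset

variable {ι : Type} [Fintype ι] [DecidableEq ι] {m : ι → ℕ}

omit [DecidableEq ι] in
theorem card_starVertex : Fintype.card (StarVertex m) = ∑ i, (m i + 1) := by
  simp [StarVertex, Fintype.card_sigma]

/-- The number of vertices of star `i` which must get colour `x` when its centre gets colour
`a`. -/
def forced (L : StarVertex m → Finset ℕ) (i : ι) (a x : ℕ) : ℕ :=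
  (if a = x then 1 else 0) + ∑ j : Fin (m i), (if (L ⟨i, some j⟩).erase a = {x} then 1 else 0)

section colouring

variable {L : StarVertex m → Finset ℕ} {c : ι → ℕ}

/-- Colourings extending the colours `c` of the centres. -/
def Valid (L : StarVertex m → Finset ℕ) (c : ι → ℕ) (f : StarVertex m → ℕ) : Prop :=
  (∀ i, f ⟨i, none⟩ = c i) ∧ ∀ i j, f ⟨i, some j⟩ ∈ (L ⟨i, some j⟩).erase (c i)

/-- size of a colour class -/
def cls (f : StarVertex m → ℕ) (x : ℕ) : ℕ := (univ.filter fun v => f v = x).card

omit [DecidableEq ι] in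
theorem cls_eq_sum (f : StarVertex m → ℕ) (x : ℕ) : cls f x =
    ∑ i, ((if f ⟨i, none⟩ = x then 1 else 0) +
      ∑ j : Fin (m i), (if f ⟨i, some j⟩ = x then 1 else 0)) := by
  unfold cls
  rw [card_filter, Fintype.sum_sigma]
  refine sum_congr rfl fun i _ => ?_
  rw [Fintype.sum_option]

theorem cls_add_le (f : StarVertex m → ℕ) {x y : ℕ} (h : x ≠ y) :
    cls f x + cls f y ≤ Fintype.card (StarVertex m) := by
  unfold cls
  rw [← card_union_of_disjoint]
  · exact card_le_univ _
  · rw [disjoint_left]
    intro v hv hv'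
    simp only [mem_filter, mem_univ, true_and] at hv hv'
    exact h (hv.symm.trans hv')

omit [Fintype ι] [DecidableEq ι] in
theorem exists_valid (hL : ∀ v, (L v).card = 2) : ∃ f, Valid L c f := by
  have h : ∀ i j, ∃ y, y ∈ (L ⟨i, some j⟩).erase (c i) := by
    intro i j
    have h1 := Finset.pred_card_le_card_erase (s := L ⟨i, some j⟩) (a := c i)
    rw [hL] at h1
    exact card_pos.1 (by omega)
  choose y hy using h
  refine ⟨fun v => match v with
    | ⟨i, none⟩ => c i
    | ⟨i, some j⟩ => y i j, fun i => rfl, fun i j => hy i j⟩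

theorem valid_improve {f : StarVertex m → ℕ} (hf : Valid L c f) {T : ℕ}
    (hF : ∀ x, ∑ i, forced L i (c i) x ≤ T)
    {x k : ℕ} (hx : cls f x = T + (k + 1)) :
    ∃ f', Valid L c f' ∧ cls f' x = T + k := by
  -- a free leaf of colour x
  have hex : ∃ i j, f ⟨i, some j⟩ = x ∧ (L ⟨i, some j⟩).erase (c i) ≠ {x} := by
    by_contra hcon
    push Not at hcon
    have : cls f x ≤ ∑ i, forced L i (c i) x := by
      rw [cls_eq_sum]
      refine sum_le_sum fun i _ => ?_
      unfold forced
      rw [hf.1 i]
      refine Nat.add_le_add_left (sum_le_sum fun j _ => ?_) _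
      by_cases h : f ⟨i, some j⟩ = x
      · rw [if_pos h, if_pos (hcon i j h)]
      · rw [if_neg h]; exact Nat.zero_le _
    have := hF x
    omega
  obtain ⟨i, j, hfx, hne⟩ := hex
  have hmem := hf.2 i j
  rw [hfx] at hmem
  obtain ⟨y, hy, hyx⟩ : ∃ y ∈ (L ⟨i, some j⟩).erase (c i), y ≠ x := by
    by_contra hcon
    push Not at hcon
    exact hne (eq_singleton_iff_unique_mem.2 ⟨hmem, hcon⟩)
  refine ⟨Function.update f ⟨i, some j⟩ y, ⟨fun i' => ?_, fun i' j' => ?_⟩, ?_⟩
  · rw [Function.update_of_ne]
    · exact hf.1 i'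
    · intro h
      have := congrArg (fun v : StarVertex m => v.2.isNone) h
      simp at this
  · by_cases h : (⟨i', some j'⟩ : StarVertex m) = ⟨i, some j⟩
    · rw [h, Function.update_self]
      have hi : i' = i := congrArg Sigma.fst h
      subst hi
      exact hy
    · rw [Function.update_of_ne h]
      exact hf.2 i' j'
  · have h1 : (univ.filter fun v => Function.update f ⟨i, some j⟩ y v = x) =
        (univ.filter fun v => f v = x).erase ⟨i, some j⟩ := by
      ext v
      simp only [mem_filter, mem_univ, true_and, mem_erase]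
      by_cases h : v = ⟨i, some j⟩
      · subst h
        simp [hyx]
      · rw [Function.update_of_ne h]
        simp [h]
    unfold cls at hx ⊢
    rw [h1, card_erase_of_mem (by simp [hfx]), hx]
    omega

theorem exists_balanced (hL : ∀ v, (L v).card = 2) {T : ℕ}
    (hT : Fintype.card (StarVertex m) ≤ 2 * T) (hF : ∀ x, ∑ i, forced L i (c i) x ≤ T) :
    ∃ f, Valid L c f ∧ ∀ x, cls f x ≤ T := by
  have key : ∀ (k : ℕ) (f : StarVertex m → ℕ) (x : ℕ), Valid L c f → cls f x = T + k →
      ∃ f', Valid L c f' ∧ ∀ x, cls f' x ≤ T := by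
    intro k
    induction k with
    | zero =>
      intro f x hf hx
      refine ⟨f, hf, fun y => ?_⟩
      by_cases h : x = y
      · subst h; omega
      · have := cls_add_le f h
        omega
    | succ k ih =>
      intro f x hf hx
      obtain ⟨f', hf', hx'⟩ := valid_improve hf hF hx
      exact ih f' x hf' hx'
  obtain ⟨f, hf⟩ := exists_valid (c := c) hL
  by_cases h : ∀ x, cls f x ≤ T
  · exact ⟨f, hf, h⟩
  · push Not at h
    obtain ⟨x, hx⟩ := h
    exact key (cls f x - T) f x hf (by omega)

omit [Fintype ι] [DecidableEq ι] in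
/-- A valid colouring is a proper colouring from the lists. -/
theorem Valid.proper (hc : ∀ i, c i ∈ L ⟨i, none⟩) {f : StarVertex m → ℕ} (hf : Valid L c f) :
    (∀ v, f v ∈ L v) ∧ ∀ u v, (starForest m).Adj u v → f u ≠ f v := by
  constructor
  · rintro ⟨i, _ | j⟩
    · rw [hf.1]; exact hc i
    · exact mem_of_mem_erase (hf.2 i j)
  · rintro ⟨i, a⟩ ⟨i', b⟩ ⟨h1, h2⟩
    simp only at h1 h2
    subst h1
    rcases a with _ | j <;> rcases b with _ | j'
    · simp at h2
    · rw [hf.1]; exact (ne_of_mem_erase (hf.2 i j')).symm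
    · rw [hf.1]; exact ne_of_mem_erase (hf.2 i j)
    · simp at h2

end colouring

/-! ### Local inequalities -/

section leaf
variable {S : Finset ℕ} {a b x y : ℕ}

theorem erase_eq_singleton (hS : S.card = 2) (h : S.erase a = {x}) : a ≠ x ∧ S = {a, x} := by
  have ha : a ∈ S := by
    by_contra ha
    rw [erase_eq_of_notMem ha] at h
    rw [h] at hS
    simp at hS
  refine ⟨?_, ?_⟩
  · rintro rfl
    have : a ∈ S.erase a := by rw [h]; simp
    simp at this
  · rw [← insert_erase ha, h]

theorem leaf_same (hxy : x ≠ y) :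
    (if S.erase a = {x} then 1 else 0) + (if S.erase a = {y} then 1 else 0) ≤ 1 := by
  by_cases h1 : S.erase a = {x}
  · rw [if_pos h1, if_neg]
    intro h2
    rw [h1, singleton_inj] at h2
    exact hxy h2
  · rw [if_neg h1]
    split <;> simp

theorem leaf_diff (hS : S.card = 2) (hab : a ≠ b) (h : ¬ (x = b ∧ y = a)) :
    (if S.erase a = {x} then 1 else 0) + (if S.erase b = {y} then 1 else 0) ≤ 1 := by
  by_cases h1 : S.erase a = {x}
  · rw [if_pos h1, if_neg]
    intro h2
    obtain ⟨n1, e1⟩ := erase_eq_singleton hS h1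
    obtain ⟨n2, e2⟩ := erase_eq_singleton hS h2
    apply h
    have m1 : b ∈ S := by rw [e2]; simp
    have m2 : a ∈ S := by rw [e1]; simp
    rw [e1, mem_insert, mem_singleton] at m1
    rw [e2, mem_insert, mem_singleton] at m2
    constructor
    · rcases m1 with m1 | m1
      · exact absurd m1.symm hab
      · exact m1.symm
    · rcases m2 with m2 | m2
      · exact absurd m2 hab
      · exact m2.symm
  · rw [if_neg h1]
    split <;> simp

theorem leaf_four (hS : S.card = 2) (hab : a ≠ b) (hxy : x ≠ y) (h : ¬ (x = b ∧ y = a))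
    (h' : ¬ (x = a ∧ y = b)) :
    (if S.erase a = {x} then 1 else 0) + (if S.erase b = {x} then 1 else 0) +
      (if S.erase a = {y} then 1 else 0) + (if S.erase b = {y} then 1 else 0) ≤ 1 := by
  have e1 := leaf_same (S := S) (a := a) hxy
  have e2 := leaf_same (S := S) (a := b) hxy
  have e3 := leaf_diff (x := x) (y := x) hS hab (fun h => hab (h.2.symm.trans h.1))
  have e4 := leaf_diff (x := y) (y := y) hS hab (fun h => hab (h.2.symm.trans h.1))
  have e5 := leaf_diff (x := x) (y := y) hS hab h
  have e6 := leaf_diff (x := y) (y := x) hS hab (fun h1 => h' ⟨h1.2, h1.1⟩)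
  omega

end leaf

section star
variable {L : StarVertex m → Finset ℕ} {i : ι} {a b x y : ℕ}

omit [Fintype ι] [DecidableEq ι] in
theorem sum_one : ∑ _j : Fin (m i), 1 = m i := by simp

omit [Fintype ι] [DecidableEq ι] in
theorem forced_self (hL : ∀ v, (L v).card = 2) : forced L i a a = 1 := by
  unfold forced
  rw [if_pos rfl]
  have : ∑ j : Fin (m i), (if (L ⟨i, some j⟩).erase a = {a} then 1 else 0) = 0 := by
    apply sum_eq_zero
    intro j _
    rw [if_neg]
    intro h
    exact (erase_eq_singleton (hL _) h).1 rfl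
  omega

omit [Fintype ι] [DecidableEq ι] in
theorem forced_le (h : a ≠ x) : forced L i a x ≤ m i := by
  unfold forced
  rw [if_neg h, Nat.zero_add]
  refine (sum_le_sum fun j _ => ?_).trans_eq (sum_one (m := m) (i := i))
  split <;> simp

omit [Fintype ι] [DecidableEq ι] in
theorem forced_same (hxy : x ≠ y) : forced L i a x + forced L i a y ≤ m i + 1 := by
  unfold forced
  have h1 : (if a = x then 1 else 0) + (if a = y then 1 else 0) ≤ 1 := by
    by_cases h : a = x
    · rw [if_pos h, if_neg (fun h' => hxy (h.symm.trans h'))]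
    · rw [if_neg h]; split <;> simp
  have h2 : ∑ j : Fin (m i), (if (L ⟨i, some j⟩).erase a = {x} then 1 else 0) +
      ∑ j : Fin (m i), (if (L ⟨i, some j⟩).erase a = {y} then 1 else 0) ≤ m i := by
    rw [← sum_add_distrib]
    conv_rhs => rw [← sum_one (m := m) (i := i)]
    exact sum_le_sum fun j _ => leaf_same hxy
  omega

omit [Fintype ι] [DecidableEq ι] in
theorem forced_diff (hL : ∀ v, (L v).card = 2) (hm : 1 ≤ m i) (hab : a ≠ b)
    (h : ¬ (x = b ∧ y = a)) : forced L i a x + forced L i b y ≤ m i + 1 := by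
  by_cases h1 : a = x
  · subst h1
    rw [forced_self hL]
    by_cases h2 : b = y
    · subst h2
      rw [forced_self hL]
      omega
    · have := forced_le (L := L) (i := i) h2
      omega
  · by_cases h2 : b = y
    · subst h2
      rw [forced_self hL]
      have := forced_le (L := L) (i := i) h1
      omega
    · unfold forced
      rw [if_neg h1, if_neg h2]
      have h3 : ∑ j : Fin (m i), (if (L ⟨i, some j⟩).erase a = {x} then 1 else 0) +
          ∑ j : Fin (m i), (if (L ⟨i, some j⟩).erase b = {y} then 1 else 0) ≤ m i := by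
        rw [← sum_add_distrib]
        conv_rhs => rw [← sum_one (m := m) (i := i)]
        exact sum_le_sum fun j _ => leaf_diff (hL _) hab h
      omega

omit [Fintype ι] [DecidableEq ι] in
theorem forced_four (hL : ∀ v, (L v).card = 2) (hab : a ≠ b) (hxy : x ≠ y)
    (h : ¬ (x = b ∧ y = a)) (h' : ¬ (x = a ∧ y = b)) :
    forced L i a x + forced L i b x + forced L i a y + forced L i b y ≤ m i + 1 := by
  unfold forced
  have h1 : (if a = x then 1 else 0) + (if b = x then 1 else 0) + (if a = y then 1 else 0) +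
      (if b = y then 1 else 0) ≤ 1 := by
    by_cases e1 : a = x <;> by_cases e2 : b = x <;> by_cases e3 : a = y <;> by_cases e4 : b = y <;>
      simp_all
  have h2 : ∑ j : Fin (m i), (if (L ⟨i, some j⟩).erase a = {x} then 1 else 0) +
      ∑ j : Fin (m i), (if (L ⟨i, some j⟩).erase b = {x} then 1 else 0) +
      ∑ j : Fin (m i), (if (L ⟨i, some j⟩).erase a = {y} then 1 else 0) +
      ∑ j : Fin (m i), (if (L ⟨i, some j⟩).erase b = {y} then 1 else 0) ≤ m i := by
    rw [← sum_add_distrib, ← sum_add_distrib, ← sum_add_distrib]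
    conv_rhs => rw [← sum_one (m := m) (i := i)]
    exact sum_le_sum fun j _ => leaf_four (hL _) hab hxy h h'
  omega

end star

end Pool.Agent.Lib.MP_5b98da_lc
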