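import Mathlib

/-!
Equitable choosability of disjoint unions of stars, and the decision problem.
-/

namespace Pool.Agent.Lib.MP_5b98da_lc

/-- Vertices of the disjoint union of the stars `K_{1, m i}`: `⟨i, none⟩` is the centre of the
`i`-th star, `⟨i, some j⟩` are its `m i` leaves. -/
abbrev StarVertex {ι : Type} (m : ι → ℕ) : Type := Σ i : ι, Option (Fin (m i))

/-- The disjoint union of the stars `K_{1, m i}`. -/
def starForest {ι : Type} (m : ι → ℕ) : SimpleGraph (StarVertex m) where
  Adj u v := u.1 = v.1 ∧ u.2.isNone ≠ v.2.isNone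
  symm := ⟨fun _ _ h => ⟨h.1.symm, h.2.symm⟩⟩
  loopless := ⟨fun _ h => h.2 rfl⟩

/-- `G` is equitably `k`-choosable: for every assignment of `k`-element lists there is a proper
colouring from the lists using every colour on at most `⌈|V| / k⌉` vertices. -/
def EquitablyChoosable {V : Type} [Fintype V] (G : SimpleGraph V) (k : ℕ) : Prop :=
  ∀ L : V → Finset ℕ, (∀ v, (L v).card = k) →
    ∃ f : V → ℕ, (∀ v, f v ∈ L v) ∧ (∀ u v, G.Adj u v → f u ≠ f v) ∧
      ∀ c, (Finset.univ.filter fun v => f v = c).card ≤ ⌈(Fintype.card V : ℚ) / k⌉₊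

/-- A natural number in binary, as a self-delimiting word: every binary digit is preceded by `1`,
and `0` marks the end. -/
def encodeNat (m : ℕ) : List Bool := m.bits.flatMap (fun b => [true, b]) ++ [false]

/-- A tuple of natural numbers in binary. -/
def encodeTuple (ms : List ℕ) : List Bool := ms.flatMap encodeNat

/-- The decision problem STARS EQUITABLE 2-CHOOSABILITY: the codes of the tuples `(m₁, …, mₙ)` of
natural numbers, all of them at least `b`, for which `K_{1,m₁} + … + K_{1,mₙ}` is equitably
2-choosable. Taking `b = 1` means that the natural numbers start at 1. -/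
def starsEquitable2Choosability (b : ℕ) : Set (List Bool) :=
  {w | ∃ ms : List ℕ, (∀ m ∈ ms, b ≤ m) ∧ w = encodeTuple ms ∧
    EquitablyChoosable (starForest ms.get) 2}

end Pool.Agent.Lib.MP_5b98da_lc
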