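import Pool.Agent.Lib.MP_5b98da_lc.Structure

/-!
For star sizes `2 v + 1`, where the numbers `v` consist of a small fine part and a dominating
coarse part, equitable 2-choosability is the same as an exact partition of the numbers `v`.
-/

namespace Pool.Agent.Lib.MP_5b98da_lc

open Finset

section necessity
variable {ι : Type} [Fintype ι] [DecidableEq ι] {m v : ι → ℕ}

theorem exact_of_choosable (hm : ∀ i, m i = 2 * v i + 1)
    (h : EquitablyChoosable (starForest m) 2) :
    ∃ A : Finset ι, ∑ i ∈ A, v i = ∑ i ∈ Aᶜ, v i := by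
  classical
  obtain ⟨f, hf, hp, hcls⟩ := h (fun _ => {0, 1}) (fun _ => by simp)
  have hN : Fintype.card (StarVertex m) = 2 * ∑ i, (v i + 1) := by
    rw [card_starVertex, mul_sum]
    exact sum_congr rfl fun i _ => by rw [hm i]; ring
  have hT : ⌈((Fintype.card (StarVertex m) : ℕ) : ℚ) / ((2 : ℕ) : ℚ)⌉₊ = ∑ i, (v i + 1) := by
    rw [hN]
    have : (((2 * ∑ i, (v i + 1) : ℕ) : ℚ) / ((2 : ℕ) : ℚ)) = ((∑ i, (v i + 1) : ℕ) : ℚ) := by
      push_cast
      ring
    rw [this, Nat.ceil_natCast]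
  rw [hT] at hcls
  set A : Finset ι := univ.filter fun i => f ⟨i, none⟩ = 0 with hA
  have hleaf : ∀ i (j : Fin (m i)), (i ∈ A → f ⟨i, some j⟩ = 1) ∧ (i ∉ A → f ⟨i, some j⟩ = 0) := by
    intro i j
    have h1 := hf ⟨i, none⟩
    have h2 := hf ⟨i, some j⟩
    have h3 := hp ⟨i, none⟩ ⟨i, some j⟩ ⟨rfl, by simp⟩
    simp only [mem_insert, mem_singleton] at h1 h2
    simp only [hA, mem_filter, mem_univ, true_and]
    omega
  have hcent : ∀ i, i ∉ A → f ⟨i, none⟩ = 1 := by
    intro i hi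
    have h1 := hf ⟨i, none⟩
    simp only [mem_insert, mem_singleton] at h1
    simp only [hA, mem_filter, mem_univ, true_and] at hi
    omega
  have hcent' : ∀ i, i ∈ A → f ⟨i, none⟩ = 0 := by
    intro i hi
    simp only [hA, mem_filter, mem_univ, true_and] at hi
    exact hi
  have c0 := hcls 0
  have c1 := hcls 1
  change cls f 0 ≤ _ at c0
  change cls f 1 ≤ _ at c1
  rw [cls_eq_sum, ← sum_add_sum_compl A] at c0 c1
  have e0 : ∑ i ∈ A, ((if f ⟨i, none⟩ = 0 then 1 else 0) +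
      ∑ j : Fin (m i), (if f ⟨i, some j⟩ = 0 then 1 else 0)) = A.card := by
    rw [card_eq_sum_ones]
    refine sum_congr rfl fun i hi => ?_
    rw [if_pos (hcent' i hi), sum_eq_zero fun j _ => by rw [(hleaf i j).1 hi]; simp,
      Nat.add_zero]
  have e0' : ∑ i ∈ Aᶜ, ((if f ⟨i, none⟩ = 0 then 1 else 0) +
      ∑ j : Fin (m i), (if f ⟨i, some j⟩ = 0 then 1 else 0)) =
      2 * ∑ i ∈ Aᶜ, v i + (Aᶜ).card := by
    rw [card_eq_sum_ones, mul_sum, ← sum_add_distrib]
    refine sum_congr rfl fun i hi => ?_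
    rw [mem_compl] at hi
    rw [hcent i hi, ← hm i]
    have : ∑ j : Fin (m i), (if f ⟨i, some j⟩ = 0 then 1 else 0) = m i := by
      rw [sum_congr rfl (fun j _ => if_pos ((hleaf i j).2 hi))]
      simp
    rw [this]
    simp
  have e1 : ∑ i ∈ A, ((if f ⟨i, none⟩ = 1 then 1 else 0) +
      ∑ j : Fin (m i), (if f ⟨i, some j⟩ = 1 then 1 else 0)) = 2 * ∑ i ∈ A, v i + A.card := by
    rw [card_eq_sum_ones, mul_sum, ← sum_add_distrib]
    refine sum_congr rfl fun i hi => ?_
    rw [hcent' i hi, ← hm i]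
    have : ∑ j : Fin (m i), (if f ⟨i, some j⟩ = 1 then 1 else 0) = m i := by
      rw [sum_congr rfl (fun j _ => if_pos ((hleaf i j).1 hi))]
      simp
    rw [this]
    simp
  have e1' : ∑ i ∈ Aᶜ, ((if f ⟨i, none⟩ = 1 then 1 else 0) +
      ∑ j : Fin (m i), (if f ⟨i, some j⟩ = 1 then 1 else 0)) = (Aᶜ).card := by
    rw [card_eq_sum_ones]
    refine sum_congr rfl fun i hi => ?_
    rw [mem_compl] at hi
    rw [if_pos (hcent i hi), sum_eq_zero fun j _ => by rw [(hleaf i j).2 hi]; simp,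
      Nat.add_zero]
  rw [e0, e0'] at c0
  rw [e1, e1'] at c1
  have s1 : ∑ i, (v i + 1) = ∑ i ∈ A, v i + A.card + (∑ i ∈ Aᶜ, v i + (Aᶜ).card) := by
    rw [← sum_add_sum_compl A, sum_add_distrib, sum_add_distrib]
    simp
  refine ⟨A, ?_⟩
  omega

end necessity

theorem number_lemma {p p' q' : ℕ} (hp : p' ≤ p) (h4 : 4 ≤ p) (hq : q' ≤ 2)
    (h : p' < p ∨ q' < 2) : ∃ s ≤ p', ∃ t ≤ q',
      2 * ((2 * s + 3 * t : ℤ) - (2 * p' + 3 * q' - (2 * s + 3 * t))) + 1 ≤
        2 * (p - p') + 3 * (2 - q') ∧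
      -(2 * ((2 * s + 3 * t : ℤ) - (2 * p' + 3 * q' - (2 * s + 3 * t)))) + 1 ≤
        2 * (p - p') + 3 * (2 - q') := by
  obtain rfl | rfl | rfl : q' = 0 ∨ q' = 1 ∨ q' = 2 := by omega
  · exact ⟨(p' + 1) / 2, by omega, 0, by omega, by omega, by omega⟩
  · exact ⟨(p' - 1) / 2, by omega, 1, by omega, by omega, by omega⟩
  · by_cases h1 : p' % 2 = 0
    · exact ⟨p' / 2, by omega, 1, by omega, by omega, by omega⟩
    · by_cases h3 : p' = 1
      · exact ⟨1, by omega, 1, by omega, by omega, by omega⟩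
      · exact ⟨(p' + 3) / 2, by omega, 0, by omega, by omega, by omega⟩

section sufficiency
variable {ι : Type} [Fintype ι] [DecidableEq ι] {m kd fn : ι → ℕ} {B : ℕ}

theorem choosable_of_exact (hm : ∀ i, m i = 2 * (fn i + B * kd i) + 1)
    (hkd : ∀ i, kd i = 2 ∨ kd i = 3)
    (h2 : 4 ≤ (univ.filter fun i => kd i = 2).card)
    (h3 : (univ.filter fun i => kd i = 3).card = 2)
    (hfn : 2 * ∑ i, fn i ≤ B)
    (hex : ∃ A : Finset ι, ∑ i ∈ A, (fn i + B * kd i) = ∑ i ∈ Aᶜ, (fn i + B * kd i)) :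
    EquitablyChoosable (starForest m) 2 := by
  classical
  have hw : ∀ S : Finset ι, ∑ i ∈ S, ((m i : ℤ) - 1) =
      2 * ((∑ i ∈ S, fn i : ℕ) : ℤ) + 2 * (B * ((∑ i ∈ S, kd i : ℕ) : ℤ)) := by
    intro S
    push_cast
    rw [mul_sum, mul_sum, mul_sum, ← sum_add_distrib]
    refine sum_congr rfl fun i _ => ?_
    rw [hm i]
    push_cast
    ring
  refine choosable_of (fun i => by rw [hm i]; omega) fun D => ?_
  by_cases hD : D = univ
  · subst hD
    obtain ⟨A, hA⟩ := hex
    refine ⟨A, subset_univ _, ?_⟩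
    have h1 : (∑ i ∈ A, ((m i : ℤ) - 1)) = ∑ i ∈ univ \ A, ((m i : ℤ) - 1) := by
      have h1 : ∀ S : Finset ι, ∑ i ∈ S, ((m i : ℤ) - 1) =
          2 * ((∑ i ∈ S, (fn i + B * kd i) : ℕ) : ℤ) := by
        intro S
        rw [hw]
        push_cast
        rw [sum_add_distrib, ← mul_sum]
        ring
      rw [h1, h1, ← compl_eq_univ_sdiff, hA]
    rw [h1, sub_self, abs_zero, mul_zero, compl_univ, sum_empty]
    norm_num
  · set D₂ := D.filter fun i => kd i = 2 with hD₂
    set D₃ := D.filter fun i => kd i = 3 with hD₃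
    have s2 : D₂ ⊆ univ.filter fun i => kd i = 2 := filter_subset_filter _ (subset_univ _)
    have s3 : D₃ ⊆ univ.filter fun i => kd i = 3 := filter_subset_filter _ (subset_univ _)
    have c2 := card_le_card s2
    have c3 := card_le_card s3
    rw [h3] at c3
    have hlt : D₂.card < (univ.filter fun i => kd i = 2).card ∨ D₃.card < 2 := by
      obtain ⟨i, hi⟩ : ∃ i, i ∉ D := by
        by_contra hcon
        push Not at hcon
        exact hD (eq_univ_iff_forall.2 hcon)
      rcases hkd i with h | h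
      · left
        refine card_lt_card ⟨s2, fun hsub => hi ?_⟩
        have := hsub (mem_filter.2 ⟨mem_univ i, h⟩)
        exact (mem_filter.1 this).1
      · right
        rw [← h3]
        refine card_lt_card ⟨s3, fun hsub => hi ?_⟩
        have := hsub (mem_filter.2 ⟨mem_univ i, h⟩)
        exact (mem_filter.1 this).1
    obtain ⟨s, hs, t, ht, hst1, hst2⟩ := number_lemma c2 h2 c3 hlt
    obtain ⟨A₂, hA₂, rfl⟩ := exists_subset_card_eq hs
    obtain ⟨A₃, hA₃, rfl⟩ := exists_subset_card_eq ht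
    have hdis : Disjoint A₂ A₃ := by
      rw [disjoint_left]
      intro i h h'
      have e1 := (mem_filter.1 (hA₂ h)).2
      have e2 := (mem_filter.1 (hA₃ h')).2
      omega
    have kA : ∑ i ∈ A₂ ∪ A₃, kd i = 2 * A₂.card + 3 * A₃.card := by
      rw [sum_union hdis, sum_congr rfl (fun i hi => (mem_filter.1 (hA₂ hi)).2),
        sum_congr rfl (fun i hi => (mem_filter.1 (hA₃ hi)).2), sum_const, sum_const]
      simp [mul_comm]
    have kS : ∀ S : Finset ι, ∑ i ∈ S, kd i = 2 * (S.filter fun i => kd i = 2).card +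
        3 * (S.filter fun i => kd i = 3).card := by
      intro S
      have : S = (S.filter fun i => kd i = 2) ∪ (S.filter fun i => kd i = 3) := by
        ext i
        simp only [mem_union, mem_filter]
        have := hkd i
        tauto
      conv_lhs => rw [this]
      rw [sum_union, sum_congr rfl (fun i hi => (mem_filter.1 hi).2),
        sum_congr (g := fun _ => 3) rfl (fun i hi => (mem_filter.1 hi).2), sum_const, sum_const]
      · simp [mul_comm]
      · rw [disjoint_left]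
        intro i h h'
        have e1 := (mem_filter.1 h).2
        have e2 := (mem_filter.1 h').2
        omega
    have hsub : A₂ ∪ A₃ ⊆ D :=
      union_subset (hA₂.trans (filter_subset _ _)) (hA₃.trans (filter_subset _ _))
    refine ⟨A₂ ∪ A₃, hsub, ?_⟩
    have k1 := sum_sdiff (f := kd) hsub
    have k2 := sum_add_sum_compl D kd
    have f1 := sum_sdiff (f := fn) hsub
    have f2 := sum_add_sum_compl D fn
    have kD := kS D
    rw [← hD₂, ← hD₃] at kD
    have kU := kS univ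
    rw [h3] at kU
    have hR : 2 * ((B : ℤ) * ((∑ i ∈ Dᶜ, kd i : ℕ) : ℤ)) ≤ ∑ i ∈ Dᶜ, ((m i : ℤ) + 1) := by
      push_cast
      rw [mul_sum, mul_sum]
      refine sum_le_sum fun i _ => ?_
      rw [hm i]
      push_cast
      have : (0 : ℤ) ≤ fn i := by positivity
      linarith
    rw [hw, hw]
    set a := ∑ i ∈ A₂ ∪ A₃, fn i
    set a' := ∑ i ∈ D \ (A₂ ∪ A₃), fn i
    set k := ∑ i ∈ A₂ ∪ A₃, kd i
    set k' := ∑ i ∈ D \ (A₂ ∪ A₃), kd i
    set k'' := ∑ i ∈ Dᶜ, kd i
    rw [kA] at k1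
    have g1 : 2 * ((k : ℤ) - k') + 1 ≤ k'' := by omega
    have g2 : -(2 * ((k : ℤ) - k')) + 1 ≤ k'' := by omega
    have hB : (0 : ℤ) ≤ B := by positivity
    have g1' := mul_le_mul_of_nonneg_left g1 hB
    have g2' := mul_le_mul_of_nonneg_left g2 hB
    have g3 : 2 * (a : ℤ) + 2 * a' ≤ B := by omega
    have ha : (0 : ℤ) ≤ a := by positivity
    have ha' : (0 : ℤ) ≤ a' := by positivity
    have : |2 * (a : ℤ) + 2 * ((B : ℤ) * k) - (2 * a' + 2 * ((B : ℤ) * k'))| ≤
        2 * a + 2 * a' + |2 * ((B : ℤ) * k) - 2 * ((B : ℤ) * k')| := by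
      rw [abs_le]
      have h1 := neg_abs_le (2 * ((B : ℤ) * k) - 2 * ((B : ℤ) * k'))
      have h2 := le_abs_self (2 * ((B : ℤ) * k) - 2 * ((B : ℤ) * k'))
      constructor <;> linarith
    have h5 : 2 * |2 * ((B : ℤ) * k) - 2 * ((B : ℤ) * k')| + 2 * B ≤ 2 * (B * k'') := by
      rcases abs_cases (2 * ((B : ℤ) * k) - 2 * ((B : ℤ) * k')) with ⟨h, _⟩ | ⟨h, _⟩ <;>
        rw [h] <;> linarith
    linarith

end sufficiency

end Pool.Agent.Lib.MP_5b98da_lc
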