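import Mathlib

/-!
Signed sums over lists.
-/

namespace Pool.Agent.Lib.MP_5b98da_lc

open Finset

section
variable {β γ : Type}

/-- The signed sum of the values of a list of signed elements. -/
def ssum (v : β → ℕ) (L : List (Bool × β)) : ℤ :=
  (L.map fun p => if p.1 then (v p.2 : ℤ) else -(v p.2 : ℤ)).sum

theorem ssum_nil (v : β → ℕ) : ssum v [] = 0 := rfl

theorem ssum_cons (v : β → ℕ) (p : Bool × β) (L : List (Bool × β)) :
    ssum v (p :: L) = (if p.1 then (v p.2 : ℤ) else -(v p.2 : ℤ)) + ssum v L := by
  simp [ssum]

theorem ssum_append (v : β → ℕ) (L L' : List (Bool × β)) :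
    ssum v (L ++ L') = ssum v L + ssum v L' := by
  simp [ssum]

theorem ssum_congr {v w : β → ℕ} {L : List (Bool × β)} (h : ∀ p ∈ L, v p.2 = w p.2) :
    ssum v L = ssum w L := by
  unfold ssum
  rw [List.map_congr_left]
  intro p hp
  rw [h p hp]

theorem ssum_map (v : γ → ℕ) (g : β → γ) (L : List (Bool × β)) :
    ssum v (L.map fun p => (p.1, g p.2)) = ssum (fun b => v (g b)) L := by
  unfold ssum
  rw [List.map_map]
  rfl

theorem ssum_flip (v : γ → ℕ) (g : β → γ) (L : List (Bool × β)) :
    ssum v (L.map fun p => (!p.1, g p.2)) = -ssum (fun b => v (g b)) L := by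
  induction L with
  | nil => rfl
  | cons p L ih =>
    rw [List.map_cons, ssum_cons, ssum_cons, ih]
    rcases p with ⟨_ | _, b⟩ <;> simp <;> ring

theorem ssum_add (v w : β → ℕ) (L : List (Bool × β)) :
    ssum (fun b => v b + w b) L = ssum v L + ssum w L := by
  induction L with
  | nil => rfl
  | cons p L ih =>
    rw [ssum_cons, ssum_cons, ssum_cons, ih]
    rcases p with ⟨_ | _, b⟩ <;> simp <;> ring

theorem ssum_mul (c : ℕ) (v : β → ℕ) (L : List (Bool × β)) :
    ssum (fun b => c * v b) L = c * ssum v L := by
  induction L with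
  | nil => simp [ssum]
  | cons p L ih =>
    rw [ssum_cons, ssum_cons, ih]
    rcases p with ⟨_ | _, b⟩ <;> simp <;> ring

theorem ssum_zero {v : β → ℕ} {L : List (Bool × β)} (h : ∀ p ∈ L, v p.2 = 0) : ssum v L = 0 := by
  rw [ssum_congr (w := fun _ => 0 * 0) (fun p hp => (h p hp).trans (by simp)), ssum_mul]
  simp

theorem ssum_pos (v : β → ℕ) (l : List β) :
    ssum v (l.map fun b => (true, b)) = ((l.map v).sum : ℕ) := by
  induction l with
  | nil => rfl
  | cons b l ih =>
    rw [List.map_cons, ssum_cons, ih]
    simp

/-- The sign of `y`. -/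
def sg [DecidableEq β] (L : List (Bool × β)) (y : β) : ℤ := if (true, y) ∈ L then 1 else -1

theorem sg_cases [DecidableEq β] (L : List (Bool × β)) (y : β) : sg L y = 1 ∨ sg L y = -1 := by
  unfold sg
  split <;> simp

theorem ssum_ind [DecidableEq β] {L : List (Bool × β)} {y : β} (hn : (L.map Prod.snd).Nodup)
    (hy : y ∈ L.map Prod.snd) : ssum (fun x => if x = y then 1 else 0) L = sg L y := by
  induction L with
  | nil => simp at hy
  | cons p L ih =>
    rw [List.map_cons, List.nodup_cons] at hn
    rw [List.map_cons, List.mem_cons] at hy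
    rw [ssum_cons]
    by_cases h : p.2 = y
    · have h0 : ssum (fun x => if x = y then 1 else 0) L = 0 := by
        refine ssum_zero fun q hq => if_neg fun e => hn.1 ?_
        rw [h, ← e]
        exact List.mem_map_of_mem hq
      have h1 : (true, y) ∉ L := by
        intro hmem
        apply hn.1
        rw [h]
        exact List.mem_map_of_mem (f := Prod.snd) hmem
      rw [h0]
      unfold sg
      rcases p with ⟨b, x⟩
      simp only at h
      subst h
      cases b <;> simp [h1]
    · have hy' : y ∈ L.map Prod.snd := by
        rcases hy with hy | hy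
        · exact absurd hy.symm h
        · exact hy
      rw [ih hn.2 hy']
      unfold sg
      have : ((true, y) ∈ p :: L) ↔ (true, y) ∈ L := by
        rw [List.mem_cons]
        constructor
        · rintro (e | e)
          · exact absurd (congrArg Prod.snd e).symm h
          · exact e
        · exact Or.inr
      simp only [this, h]
      simp

theorem exists_lift {g : β → γ} : ∀ {l : List β} {L : List (Bool × γ)},
    L.map Prod.snd = l.map g →
      ∃ L' : List (Bool × β), L'.map Prod.snd = l ∧ L = L'.map fun p => (p.1, g p.2) := by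
  intro l
  induction l with
  | nil =>
    intro L h
    rw [List.map_nil, List.map_eq_nil_iff] at h
    exact ⟨[], rfl, by rw [h]; rfl⟩
  | cons b l ih =>
    intro L h
    cases L with
    | nil => simp at h
    | cons p L =>
      rw [List.map_cons, List.map_cons, List.cons.injEq] at h
      obtain ⟨L', h1, h2⟩ := ih h.2
      refine ⟨(p.1, b) :: L', by rw [List.map_cons, h1], ?_⟩
      rw [List.map_cons, ← h2]
      congr 1
      exact Prod.ext rfl h.1

theorem sum_get (l : List β) (g : β → ℕ) : ∑ i : Fin l.length, g (l.get i) = (l.map g).sum := by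
  rw [← List.sum_ofFn]
  congr 1
  apply List.ext_getElem
  · simp
  · intro i h1 h2
    simp

theorem exists_finset_iff (l : List β) (v : β → ℕ) :
    (∃ A : Finset (Fin l.length), ∑ i ∈ A, v (l.get i) = ∑ i ∈ Aᶜ, v (l.get i)) ↔
      ∃ L : List (Bool × β), L.map Prod.snd = l ∧ ssum v L = 0 := by
  have key : ∀ s : Fin l.length → Bool,
      ∑ i, (if s i then (v (l.get i) : ℤ) else -(v (l.get i) : ℤ)) =
        ((∑ i ∈ univ.filter (fun i => s i = true), v (l.get i) : ℕ) : ℤ) -
        ((∑ i ∈ (univ.filter (fun i => s i = true))ᶜ, v (l.get i) : ℕ) : ℤ) := by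
    intro s
    rw [← sum_add_sum_compl (univ.filter (fun i => s i = true))]
    rw [sum_congr (g := fun i => (v (l.get i) : ℤ)) rfl
      (fun i hi => if_pos (mem_filter.1 hi).2)]
    rw [sum_congr (s₁ := (univ.filter (fun i => s i = true))ᶜ)
      (g := fun i => -(v (l.get i) : ℤ)) rfl (fun i hi => if_neg (by simpa using hi))]
    rw [sum_neg_distrib]
    push_cast
    ring
  constructor
  · rintro ⟨A, hA⟩
    refine ⟨List.ofFn fun i => (decide (i ∈ A), l.get i), ?_, ?_⟩
    · apply List.ext_getElem
      · simp
      · intro i h1 h2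
        simp
    · unfold ssum
      rw [List.map_ofFn, List.sum_ofFn]
      have := key (fun i => decide (i ∈ A))
      have hf : univ.filter (fun i => decide (i ∈ A) = true) = A := by
        ext i; simp
      rw [hf, hA, sub_self] at this
      exact this
  · rintro ⟨L, hL, h0⟩
    have hlen : l.length = L.length := by rw [← hL, List.length_map]
    let s : Fin l.length → Bool := fun i => (L[i.1]'(by rw [← hlen]; exact i.2)).1
    refine ⟨univ.filter (fun i => s i = true), ?_⟩
    have h1 := key s
    have h2 : ∑ i, (if s i then (v (l.get i) : ℤ) else -(v (l.get i) : ℤ)) = ssum v L := by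
      unfold ssum
      rw [← List.sum_ofFn]
      congr 1
      apply List.ext_getElem
      · simp [hlen]
      · intro i g1 g2
        have : l[i]'(by simpa using g1) = (L[i]'(by simpa using g2)).2 := by
          subst hL
          simp
        simp [s, this]
    rw [h2, h0] at h1
    omega

end

end Pool.Agent.Lib.MP_5b98da_lc
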