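import Pool.Agent.Lib.MP_5b98da_lc.Exact
import Pool.Agent.Lib.MP_5b98da_lc.Signed
import Pool.Agent.Lib.CookLevin.Nae

/-!
The star sizes for an instance of monotone NAE-3SAT.
-/

namespace Pool.Agent.Lib.MP_5b98da_lc

open Pool.Agent.CookLevin

variable {α : Type} [DecidableEq α]

/-! ### Removing duplicates -/

/-- The list without duplicates. -/
def dd (l : List α) : List α := l.foldl (fun acc x => if x ∈ acc then acc else x :: acc) []

theorem dd_aux (l : List α) : ∀ acc : List α, acc.Nodup →
    (l.foldl (fun acc x => if x ∈ acc then acc else x :: acc) acc).Nodup ∧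
    ∀ y, y ∈ l.foldl (fun acc x => if x ∈ acc then acc else x :: acc) acc ↔ y ∈ acc ∨ y ∈ l := by
  induction l with
  | nil => intro acc h; exact ⟨h, fun y => by simp⟩
  | cons x l ih =>
    intro acc h
    rw [List.foldl_cons]
    by_cases hx : x ∈ acc
    · rw [if_pos hx]
      obtain ⟨h1, h2⟩ := ih acc h
      refine ⟨h1, fun y => ?_⟩
      rw [h2, List.mem_cons]
      constructor
      · rintro (h | h)
        · exact Or.inl h
        · exact Or.inr (Or.inr h)
      · rintro (h | rfl | h)
        · exact Or.inl h
        · exact Or.inl hx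
        · exact Or.inr h
    · rw [if_neg hx]
      obtain ⟨h1, h2⟩ := ih (x :: acc) (List.nodup_cons.2 ⟨hx, h⟩)
      refine ⟨h1, fun y => ?_⟩
      rw [h2, List.mem_cons, List.mem_cons]
      tauto

theorem dd_nodup (l : List α) : (dd l).Nodup := (dd_aux l [] List.nodup_nil).1

theorem mem_dd {l : List α} {y : α} : y ∈ dd l ↔ y ∈ l := by
  rw [dd, (dd_aux l [] List.nodup_nil).2]
  simp

/-! ### The elements -/

/-- A clause together with its number. -/
abbrev Cls (α : Type) : Type := (α × (α × α)) × ℕ

/-- The variables of the instance. -/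
def vars (I : List (α × (α × α))) : List α := dd (I.flatMap fun T => [T.1, T.2.1, T.2.2])

/-- Elements: one for every variable, one for every clause, dummies. -/
inductive El (α : Type) : Type
  | var (x : α) : El α
  | slack (g : Cls α) : El α
  | dum : El α
  | three : El α

/-- Number of occurrences of `x` in `T`. -/
def occ (x : α) (T : α × (α × α)) : ℕ :=
  (if x = T.1 then 1 else 0) + (if x = T.2.1 then 1 else 0) + (if x = T.2.2 then 1 else 0)

/-- The digit of an element in the column of a clause. -/
def dg (g : Cls α) : El α → ℕ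
  | .var x => occ x g.1
  | .slack h => if h.2 = g.2 then 1 else 0
  | .dum => 0
  | .three => 0

/-- The coarse part. -/
def kd : El α → ℕ
  | .three => 3
  | _ => 2

/-- The number with given digits, fine part only. -/
def fn (J : List (Cls α)) (b : El α) : ℕ := J.foldr (fun g acc => dg g b + 16 * acc) 0

/-- The number with given digits. -/
def val (J : List (Cls α)) (b : El α) : ℕ := J.foldr (fun g acc => dg g b + 16 * acc) (kd b)

theorem val_eq (J : List (Cls α)) (b : El α) : val J b = fn J b + 16 ^ J.length * kd b := by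
  induction J with
  | nil => simp [val, fn]
  | cons g J ih =>
    have h1 : val (g :: J) b = dg g b + 16 * val J b := rfl
    have h2 : fn (g :: J) b = dg g b + 16 * fn J b := rfl
    rw [h1, h2, ih, List.length_cons, pow_succ]
    ring

/-- The elements of the instance. -/
def els (I : List (α × (α × α))) : List (El α) :=
  ((vars I).map El.var ++ I.zipIdx.map El.slack) ++
    (((vars I).map (fun _ => El.dum) ++ I.zipIdx.map (fun _ => El.dum)) ++
      [.dum, .dum, .dum, .dum, .three, .three])

theorem zipIdx_nodup {β : Type} (I : List β) : I.zipIdx.Nodup := by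
  apply List.Nodup.of_map Prod.snd
  rw [List.zipIdx_map_snd]
  exact List.nodup_range'

theorem zipIdx_inj {β : Type} {I : List β} {g h : β × ℕ} (hg : g ∈ I.zipIdx) (hh : h ∈ I.zipIdx)
    (e : h.2 = g.2) : h = g := by
  rw [List.mem_zipIdx_iff_getElem?] at hg hh
  rw [e, hg, Option.some_inj] at hh
  exact Prod.ext hh.symm e

theorem mem_vars {I : List (α × (α × α))} {T : α × (α × α)} (hT : T ∈ I) :
    T.1 ∈ vars I ∧ T.2.1 ∈ vars I ∧ T.2.2 ∈ vars I := by
  unfold vars
  simp only [mem_dd, List.mem_flatMap]
  exact ⟨⟨T, hT, by simp⟩, ⟨T, hT, by simp⟩, ⟨T, hT, by simp⟩⟩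

/-- The sum of a column. -/
theorem column {I : List (α × (α × α))} {L₁ : List (Bool × α)} {L₂ : List (Bool × Cls α)}
    {L₃ : List (Bool × El α)} (h1 : L₁.map Prod.snd = vars I) (h2 : L₂.map Prod.snd = I.zipIdx)
    (h3 : ∀ p ∈ L₃, p.2 = El.dum ∨ p.2 = El.three) {g : Cls α} (hg : g ∈ I.zipIdx) :
    ssum (dg g) (((L₁.map fun p => (p.1, El.var p.2)) ++ L₂.map fun p => (p.1, El.slack p.2)) ++
      L₃) = sg L₁ g.1.1 + sg L₁ g.1.2.1 + sg L₁ g.1.2.2 + sg L₂ g := by
  have hT : g.1 ∈ I := by
    rw [List.mem_zipIdx_iff_getElem?] at hg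
    exact List.mem_of_getElem? hg
  obtain ⟨m1, m2, m3⟩ := mem_vars hT
  have hn : (L₁.map Prod.snd).Nodup := by rw [h1]; exact dd_nodup _
  have hn2 : (L₂.map Prod.snd).Nodup := by rw [h2]; exact zipIdx_nodup _
  rw [← h1] at m1 m2 m3
  rw [ssum_append, ssum_append, ssum_map, ssum_map]
  have e1 : ssum (fun b => dg g (El.var b)) L₁ = sg L₁ g.1.1 + sg L₁ g.1.2.1 + sg L₁ g.1.2.2 := by
    change ssum (fun b => occ b g.1) L₁ = _
    unfold occ
    rw [ssum_add, ssum_add, ssum_ind hn m1, ssum_ind hn m2, ssum_ind hn m3]
  have e2 : ssum (fun b => dg g (El.slack b)) L₂ = sg L₂ g := by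
    rw [← ssum_ind hn2 (by rw [h2]; exact hg)]
    refine ssum_congr fun p hp => ?_
    have hp' : p.2 ∈ I.zipIdx := by rw [← h2]; exact List.mem_map_of_mem hp
    change (if p.2.2 = g.2 then 1 else 0) = if p.2 = g then 1 else 0
    by_cases h : p.2 = g
    · rw [if_pos h, if_pos (by rw [h])]
    · rw [if_neg h, if_neg (fun e => h (zipIdx_inj hg hp' e))]
  have e3 : ssum (dg g) L₃ = 0 := by
    refine ssum_zero fun p hp => ?_
    rcases h3 p hp with h | h <;> rw [h] <;> rfl
  rw [e1, e2, e3, add_zero]

theorem ssum_val_cons (g : Cls α) (J : List (Cls α)) (L : List (Bool × El α)) :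
    ssum (val (g :: J)) L = ssum (dg g) L + 16 * ssum (val J) L := by
  have : val (g :: J) = fun b => dg g b + 16 * val J b := rfl
  rw [this, ssum_add, ssum_mul]
  rfl

theorem ssum_fn_cons (g : Cls α) (J : List (Cls α)) (L : List (Bool × El α)) :
    ssum (fn (g :: J)) L = ssum (dg g) L + 16 * ssum (fn J) L := by
  have : fn (g :: J) = fun b => dg g b + 16 * fn J b := rfl
  rw [this, ssum_add, ssum_mul]
  rfl

theorem ssum_val_zero {J : List (Cls α)} {L : List (Bool × El α)}
    (h : ∀ g ∈ J, ssum (dg g) L = 0) (hk : ssum kd L = 0) : ssum (val J) L = 0 := by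
  induction J with
  | nil => exact hk
  | cons g J ih =>
    rw [ssum_val_cons, h g List.mem_cons_self, ih fun g' hg' => h g' (List.mem_cons_of_mem _ hg')]
    rfl

theorem digits_zero {J : List (Cls α)} {L : List (Bool × El α)}
    (h : ∀ g ∈ J, -15 ≤ ssum (dg g) L ∧ ssum (dg g) L ≤ 15) (h0 : ssum (val J) L = 0) :
    ∀ g ∈ J, ssum (dg g) L = 0 := by
  induction J with
  | nil => intro g hg; simp at hg
  | cons g J ih =>
    rw [ssum_val_cons] at h0
    have h1 := h g List.mem_cons_self
    have h2 : ssum (dg g) L = 0 := by omega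
    have h3 : ssum (val J) L = 0 := by omega
    intro g' hg'
    rw [List.mem_cons] at hg'
    rcases hg' with rfl | hg'
    · exact h2
    · exact ih (fun g' hg' => h g' (List.mem_cons_of_mem _ hg')) h3 g' hg'

/-- The numbers can be partitioned exactly iff the instance is satisfiable. -/
theorem exact_iff (I : List (α × (α × α))) :
    (∃ L : List (Bool × El α), L.map Prod.snd = els I ∧ ssum (val I.zipIdx) L = 0) ↔
      NAESat I := by
  constructor
  · rintro ⟨L, hL, h0⟩
    unfold els at hL
    rw [List.map_eq_append_iff] at hL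
    obtain ⟨L₁₂, L₃, rfl, h12, h3⟩ := hL
    rw [List.map_eq_append_iff] at h12
    obtain ⟨M₁, M₂, rfl, h1, h2⟩ := h12
    obtain ⟨L₁, g1, rfl⟩ := exists_lift h1
    obtain ⟨L₂, g2, rfl⟩ := exists_lift h2
    have h3' : ∀ p ∈ L₃, p.2 = El.dum ∨ p.2 = El.three := by
      intro p hp
      have : p.2 ∈ L₃.map Prod.snd := List.mem_map_of_mem hp
      rw [h3] at this
      simp only [List.mem_append, List.mem_map, List.mem_cons, List.not_mem_nil, or_false] at this
      rcases this with (⟨_, _, h⟩ | ⟨_, _, h⟩) | h | h | h | h | h | h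
      · exact Or.inl h.symm
      · exact Or.inl h.symm
      · exact Or.inl h
      · exact Or.inl h
      · exact Or.inl h
      · exact Or.inl h
      · exact Or.inr h
      · exact Or.inr h
    have hcol := fun g (hg : g ∈ I.zipIdx) => column g1 g2 h3' hg
    have hd := digits_zero (fun g hg => by
      rw [hcol g hg]
      have a1 := sg_cases L₁ g.1.1
      have a2 := sg_cases L₁ g.1.2.1
      have a3 := sg_cases L₁ g.1.2.2
      have a4 := sg_cases L₂ g
      omega) h0
    refine ⟨fun x => (true, x) ∈ L₁, fun T hT hmono => ?_⟩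
    obtain ⟨i, hi⟩ := List.mem_iff_getElem?.1 hT
    have hg : (T, i) ∈ I.zipIdx := List.mem_zipIdx_iff_getElem?.2 hi
    have e := hd _ hg
    rw [hcol _ hg] at e
    have a4 := sg_cases L₂ (T, i)
    have e1 : sg L₁ T.1 = sg L₁ T.2.1 := by
      unfold sg
      simp only [hmono.1]
    have e2 : sg L₁ T.2.1 = sg L₁ T.2.2 := by
      unfold sg
      simp only [hmono.2]
    have a1 := sg_cases L₁ T.1
    simp only at e
    omega
  · rintro ⟨f, hf⟩
    classical
    let s : Cls α → Bool := fun g => !(decide ((f g.1.1 ∧ f g.1.2.1) ∨ (f g.1.2.1 ∧ f g.1.2.2) ∨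
      (f g.1.1 ∧ f g.1.2.2)))
    let L₁ : List (Bool × α) := (vars I).map fun x => (decide (f x), x)
    let L₂ : List (Bool × Cls α) := I.zipIdx.map fun g => (s g, g)
    let L₃ : List (Bool × El α) := ((L₁.map fun p => (!p.1, El.dum)) ++
      (L₂.map fun p => (!p.1, El.dum))) ++
      [(true, .dum), (false, .dum), (true, .dum), (false, .dum), (true, .three), (false, .three)]
    have g1 : L₁.map Prod.snd = vars I := by
      simp only [L₁, List.map_map]
      exact List.map_id _
    have g2 : L₂.map Prod.snd = I.zipIdx := by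
      simp only [L₂, List.map_map]
      exact List.map_id _
    have h3 : ∀ p ∈ L₃, p.2 = El.dum ∨ p.2 = El.three := by
      intro p hp
      simp only [L₃, List.mem_append, List.mem_map, List.mem_cons, List.not_mem_nil,
        or_false] at hp
      rcases hp with (⟨_, _, h⟩ | ⟨_, _, h⟩) | h | h | h | h | h | h
      all_goals first
        | (left; rw [← h]; done)
        | (left; rw [h]; done)
        | (right; rw [h]; done)
    refine ⟨((L₁.map fun p => (p.1, El.var p.2)) ++ L₂.map fun p => (p.1, El.slack p.2)) ++ L₃,
      ?_, ?_⟩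
    · simp only [L₁, L₂, L₃, els, List.map_append, List.map_map]
      rfl
    · apply ssum_val_zero
      · intro g hg
        rw [column g1 g2 h3 hg]
        have hT : g.1 ∈ I := by
          rw [List.mem_zipIdx_iff_getElem?] at hg
          exact List.mem_of_getElem? hg
        obtain ⟨m1, m2, m3⟩ := mem_vars hT
        have hs1 : ∀ y ∈ vars I, sg L₁ y = if f y then 1 else -1 := by
          intro y hy
          unfold sg
          have : ((true, y) ∈ L₁) ↔ f y := by
            simp only [L₁, List.mem_map, Prod.mk.injEq]
            constructor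
            · rintro ⟨x, _, h1, rfl⟩
              simpa using h1
            · intro h
              exact ⟨y, hy, by simpa using h, rfl⟩
          simp only [this]
        have hs2 : sg L₂ g = if s g then 1 else -1 := by
          unfold sg
          have : ((true, g) ∈ L₂) ↔ s g = true := by
            simp only [L₂, List.mem_map, Prod.mk.injEq]
            constructor
            · rintro ⟨x, _, h1, rfl⟩
              exact h1
            · intro h
              exact ⟨g, hg, h, rfl⟩
          simp only [this]
        have hn := hf _ hT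
        rw [hs1 _ m1, hs1 _ m2, hs1 _ m3, hs2]
        simp only [s]
        by_cases c1 : f g.1.1 <;> by_cases c2 : f g.1.2.1 <;> by_cases c3 : f g.1.2.2 <;>
          simp [c1, c2, c3] at hn ⊢
      · simp only [L₃]
        rw [ssum_append, ssum_append, ssum_append, ssum_append, ssum_map, ssum_map,
          ssum_flip kd (fun _ => El.dum), ssum_flip kd (fun _ => El.dum)]
        simp only [ssum_cons, ssum_nil, kd]
        simp
        ring

theorem sum_fn (I : List (α × (α × α))) : 2 * ((els I).map (fn I.zipIdx)).sum ≤ 16 ^ I.length := by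
  let L₁ : List (Bool × α) := (vars I).map fun x => (true, x)
  let L₂ : List (Bool × Cls α) := I.zipIdx.map fun g => (true, g)
  let L₃ : List (Bool × El α) := (((vars I).map fun _ => (true, El.dum)) ++
      (I.zipIdx.map fun _ => (true, El.dum))) ++
      [(true, .dum), (true, .dum), (true, .dum), (true, .dum), (true, .three), (true, .three)]
  have g1 : L₁.map Prod.snd = vars I := by
    simp only [L₁, List.map_map]
    exact List.map_id _
  have g2 : L₂.map Prod.snd = I.zipIdx := by
    simp only [L₂, List.map_map]
    exact List.map_id _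
  have h3 : ∀ p ∈ L₃, p.2 = El.dum ∨ p.2 = El.three := by
    intro p hp
    simp only [L₃, List.mem_append, List.mem_map, List.mem_cons, List.not_mem_nil,
      or_false] at hp
    rcases hp with (⟨_, _, h⟩ | ⟨_, _, h⟩) | h | h | h | h | h | h
    all_goals first
      | (left; rw [← h]; done)
      | (left; rw [h]; done)
      | (right; rw [h]; done)
  set L : List (Bool × El α) :=
    ((L₁.map fun p => (p.1, El.var p.2)) ++ L₂.map fun p => (p.1, El.slack p.2)) ++ L₃ with hL
  have hLe : L = (els I).map fun b => (true, b) := by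
    simp only [hL, L₁, L₂, L₃, els, List.map_append, List.map_map]
    rfl
  have hcol : ∀ g ∈ I.zipIdx, ssum (dg g) L = 4 := by
    intro g hg
    rw [hL, column g1 g2 h3 hg]
    have hT : g.1 ∈ I := by
      rw [List.mem_zipIdx_iff_getElem?] at hg
      exact List.mem_of_getElem? hg
    obtain ⟨m1, m2, m3⟩ := mem_vars hT
    have hs1 : ∀ y ∈ vars I, sg L₁ y = 1 := by
      intro y hy
      unfold sg
      rw [if_pos]
      simp only [L₁, List.mem_map, Prod.mk.injEq]
      exact ⟨y, hy, trivial, rfl⟩
    have hs2 : sg L₂ g = 1 := by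
      unfold sg
      rw [if_pos]
      simp only [L₂, List.mem_map, Prod.mk.injEq]
      exact ⟨g, hg, trivial, rfl⟩
    rw [hs1 _ m1, hs1 _ m2, hs1 _ m3, hs2]
    norm_num
  have key : ∀ J : List (Cls α), (∀ g ∈ J, ssum (dg g) L = 4) →
      2 * ssum (fn J) L ≤ 16 ^ J.length - 1 := by
    intro J
    induction J with
    | nil =>
      intro _
      have : ssum (fn ([] : List (Cls α))) L = 0 := ssum_zero fun p _ => rfl
      rw [this]
      simp
    | cons g J ih =>
      intro h
      rw [ssum_fn_cons, h g List.mem_cons_self, List.length_cons, pow_succ]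
      have := ih fun g' hg' => h g' (List.mem_cons_of_mem _ hg')
      omega
  have h := key _ hcol
  rw [hLe, ssum_pos, List.length_zipIdx] at h
  generalize ((els I).map (fn I.zipIdx)).sum = S at h ⊢
  have h' : ((2 * S : ℕ) : ℤ) ≤ ((16 ^ I.length : ℕ) : ℤ) := by
    push_cast
    linarith
  exact_mod_cast h'

/-! ### The star sizes -/

/-- The number of leaves of the star of an element. -/
def num (J : List (Cls α)) (b : El α) : ℕ := 2 * val J b + 1

omit [DecidableEq α] in
theorem choosable_congr {n n' : ℕ} (h : n = n') {m : Fin n → ℕ} {m' : Fin n' → ℕ}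
    (hm : ∀ i, m i = m' (Fin.cast h i)) :
    EquitablyChoosable (starForest m) 2 ↔ EquitablyChoosable (starForest m') 2 := by
  subst h
  have : m = m' := funext hm
  rw [this]

theorem count_kd (I : List (α × (α × α))) (k : ℕ) :
    (Finset.univ.filter fun i : Fin (els I).length => kd ((els I).get i) = k).card =
      ((els I).map fun b => if kd b = k then 1 else 0).sum := by
  rw [Finset.card_filter, sum_get (els I) fun b => if kd b = k then 1 else 0]

/-- The instance is satisfiable iff the union of the stars is equitably 2-choosable. -/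
theorem reduction (I : List (α × (α × α))) :
    NAESat I ↔ EquitablyChoosable (starForest ((els I).map (num I.zipIdx)).get) 2 := by
  rw [choosable_congr (m' := fun i => num I.zipIdx ((els I).get i)) (List.length_map _)
    (fun i => by simp)]
  rw [← exact_iff, ← exists_finset_iff]
  constructor
  · intro h
    refine choosable_of_exact (kd := fun i => kd ((els I).get i))
      (fn := fun i => fn I.zipIdx ((els I).get i)) (B := 16 ^ I.length) ?_ ?_ ?_ ?_ ?_ ?_
    · intro i
      simp only [num, val_eq, List.length_zipIdx]
    · intro i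
      cases (els I).get i <;> simp [kd]
    · rw [count_kd]
      unfold els
      rw [List.map_append, List.map_append, List.sum_append, List.sum_append]
      simp only [kd]
      simp
      omega
    · rw [count_kd]
      unfold els
      simp only [List.map_append, List.map_map, List.sum_append]
      simp [kd, Function.comp_def]
    · rw [sum_get (els I) (fn I.zipIdx)]
      exact sum_fn I
    · obtain ⟨A, hA⟩ := h
      refine ⟨A, ?_⟩
      simp only [val_eq, List.length_zipIdx] at hA
      exact hA
  · intro h
    exact exact_of_choosable (v := fun i => val I.zipIdx ((els I).get i)) (fun i => rfl) h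

end Pool.Agent.Lib.MP_5b98da_lc
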