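import Pool.Agent.Lib.MP_5b98da_lc.Choice

/-!
The main criterion: a union of stars whose signed size sums can be balanced is equitably
2-choosable.
-/

namespace Pool.Agent.Lib.MP_5b98da_lc

open Finset

theorem eq_not_of_ne {a b : Bool} (h : b ≠ a) : b = !a := by
  cases a <;> cases b <;> simp_all

section walk
variable {ι : Type} [Fintype ι] [DecidableEq ι] {X : (ι → Bool) → ℕ}

theorem walk {P : ℕ → Prop} {K : ι → Prop}
    (hstep : ∀ ε i b, K i → P (X ε) → P (X (Function.update ε i b))) {ε ε' : ι → Bool}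
    (h : ∀ i, ¬ K i → ε i = ε' i) (hP : P (X ε)) : P (X ε') := by
  classical
  have key : ∀ s : Finset ι, P (X (s.piecewise ε' ε)) := by
    intro s
    induction s using Finset.induction_on with
    | empty => simpa using hP
    | insert i s hi ih =>
      rw [Finset.piecewise_insert]
      by_cases hK : K i
      · exact hstep _ _ _ hK ih
      · have : Function.update (s.piecewise ε' ε) i (ε' i) = s.piecewise ε' ε := by
          rw [Function.update_eq_self_iff, Finset.piecewise_eq_of_notMem _ _ _ hi, h i hK]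
        rw [this]
        exact ih
  have := key univ
  rwa [Finset.piecewise_univ] at this

theorem no_three {lst : ι → Finset ℕ}
    (hflip : ∀ ε i b, X (Function.update ε i b) ≠ X ε →
      lst i = {X ε, X (Function.update ε i b)})
    {ε₁ ε₂ ε₃ : ι → Bool} {x y z : ℕ} (h1 : X ε₁ = x) (h2 : X ε₂ = y) (h3 : X ε₃ = z)
    (hxy : x ≠ y) (hxz : x ≠ z) (hyz : y ≠ z) : False := by
  classical
  let p : ι → Bool := fun i =>
    if x ∈ lst i ∧ y ∈ lst i then ε₁ i else if y ∈ lst i then ε₂ i else ε₃ i
  let q₁ : ι → Bool := fun i => if x ∈ lst i then ε₁ i else p i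
  let q₂ : ι → Bool := fun i => if y ∈ lst i then ε₂ i else ε₃ i
  let q₃ : ι → Bool := fun i => if x ∈ lst i ∧ y ∈ lst i then ε₁ i else ε₃ i
  have stay : ∀ c : ℕ, ∀ ε i b, c ∉ lst i → X ε = c → X (Function.update ε i b) = c := by
    intro c ε i b hc hX
    by_contra hne
    have := hflip ε i b (by rw [hX]; exact hne)
    apply hc
    rw [this, ← hX]
    simp
  have avoid : ∀ c : ℕ, ∀ ε i b, c ∉ lst i → X ε ≠ c → X (Function.update ε i b) ≠ c := by
    intro c ε i b hc hX hne
    have := hflip ε i b (by rw [hne]; exact hX.symm)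
    apply hc
    rw [this, hne]
    simp
  -- the class of `p` is `x` or `y`
  have a1 : X q₂ = y := walk (P := fun t => t = y) (K := fun i => y ∉ lst i)
    (fun ε i b hc hX => stay y ε i b hc hX) (ε := ε₂) (fun i hi => by
      have hi : y ∈ lst i := not_not.1 hi
      simp only [q₂, if_pos hi]) h2
  have a2 : X p = x ∨ X p = y := walk (P := fun t => t = x ∨ t = y)
    (K := fun i => x ∈ lst i ∧ y ∈ lst i)
    (fun ε i b hc hX => by
      by_cases hne : X (Function.update ε i b) = X ε
      · rw [hne]; exact hX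
      · have := hflip ε i b hne
        rw [this] at hc
        simp only [mem_insert, mem_singleton] at hc
        rcases hX with hX | hX
        · rw [hX] at hc
          rcases hc.2 with h | h
          · exact absurd h.symm hxy
          · exact Or.inr h.symm
        · rw [hX] at hc
          rcases hc.1 with h | h
          · exact absurd h hxy
          · exact Or.inl h.symm) (ε := q₂) (fun i hi => by
      simp only [q₂, p, if_neg hi]) (Or.inr a1)
  -- it is not `x`
  have b1 : X q₃ = z := walk (P := fun t => t = z) (K := fun i => x ∈ lst i ∧ y ∈ lst i)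
    (fun ε i b hc hX => by
      by_contra hne
      have := hflip ε i b (by rw [hX]; exact hne)
      rw [this, hX] at hc
      simp only [mem_insert, mem_singleton] at hc
      rcases hc.1 with h | h
      · exact hxz h
      · rcases hc.2 with h' | h'
        · exact hyz h'
        · exact hxy (h.trans h'.symm)) (ε := ε₃) (fun i hi => by
      simp only [q₃, if_neg hi]) h3
  have b2 : X p ≠ x := walk (P := fun t => t ≠ x) (K := fun i => x ∉ lst i)
    (fun ε i b hc hX => avoid x ε i b hc hX) (ε := q₃) (fun i hi => by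
      have hi : x ∈ lst i := not_not.1 hi
      by_cases hy : y ∈ lst i
      · simp only [q₃, p, if_pos (And.intro hi hy)]
      · simp only [q₃, p, if_neg hy, if_neg (fun h : x ∈ lst i ∧ y ∈ lst i => hy h.2)])
    (by rw [b1]; exact hxz.symm)
  -- it is not `y`
  have c1 : X q₁ = x := walk (P := fun t => t = x) (K := fun i => x ∉ lst i)
    (fun ε i b hc hX => stay x ε i b hc hX) (ε := ε₁) (fun i hi => by
      have hi : x ∈ lst i := not_not.1 hi
      simp only [q₁, if_pos hi]) h1
  have c2 : X p ≠ y := walk (P := fun t => t ≠ y) (K := fun i => y ∉ lst i)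
    (fun ε i b hc hX => avoid y ε i b hc hX) (ε := q₁) (fun i hi => by
      have hi : y ∈ lst i := not_not.1 hi
      by_cases hx : x ∈ lst i
      · simp only [q₁, p, if_pos hx, if_pos (And.intro hx hi)]
      · simp only [q₁, if_neg hx])
    (by rw [c1]; exact hxy)
  rcases a2 with h | h
  · exact b2 h
  · exact c2 h

end walk

section criterion
variable {ι : Type} [Fintype ι] [DecidableEq ι] {m : ι → ℕ}

/-- If the signed sums of the numbers `m i - 1` can be balanced well enough on every subset, the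
union of the stars `K_{1, m i}` is equitably 2-choosable. -/
theorem choosable_of (hm : ∀ i, 1 ≤ m i)
    (H : ∀ D : Finset ι, ∃ A ⊆ D,
      2 * |∑ i ∈ A, ((m i : ℤ) - 1) - ∑ i ∈ D \ A, ((m i : ℤ) - 1)| ≤
        ∑ i ∈ Dᶜ, ((m i : ℤ) + 1) + 3) :
    EquitablyChoosable (starForest m) 2 := by
  classical
  intro L hL
  by_contra hno
  set T : ℕ := ⌈((Fintype.card (StarVertex m) : ℕ) : ℚ) / ((2 : ℕ) : ℚ)⌉₊ with hT
  have hTN : Fintype.card (StarVertex m) ≤ 2 * T := by
    have h := Nat.le_ceil (((Fintype.card (StarVertex m) : ℕ) : ℚ) / ((2 : ℕ) : ℚ))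
    rw [← hT] at h
    have h2 : ((Fintype.card (StarVertex m) : ℕ) : ℚ) ≤ ((2 * T : ℕ) : ℚ) := by
      push_cast at h ⊢
      linarith
    exact_mod_cast h2
  have hN : ∑ i, (m i + 1) ≤ 2 * T := by rw [← card_starVertex]; exact hTN
  have hpq : ∀ i : ι, ∃ c : Bool → ℕ, c true ≠ c false ∧ L ⟨i, none⟩ = {c true, c false} := by
    intro i
    obtain ⟨p, q, hne, h⟩ := Finset.card_eq_two.1 (hL ⟨i, none⟩)
    exact ⟨fun b => if b then p else q, hne, h⟩
  choose col hcol hlist using hpq
  have hcne : ∀ i b, col i b ≠ col i (!b) := by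
    intro i b
    cases b
    · exact (hcol i).symm
    · exact hcol i
  have hcmem : ∀ i b, col i b ∈ L ⟨i, none⟩ := by
    intro i b
    rw [hlist]
    cases b <;> simp
  have hlist' : ∀ i b, L ⟨i, none⟩ = {col i b, col i (!b)} := by
    intro i b
    cases b
    · rw [hlist, pair_comm]; rfl
    · exact hlist i
  have hex : ∀ ε : ι → Bool, ∃ x, T + 1 ≤ ∑ i, forced L i (col i (ε i)) x := by
    intro ε
    by_contra hcon
    push Not at hcon
    obtain ⟨f, hf, hf'⟩ := exists_balanced (c := fun i => col i (ε i)) hL hTN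
      (fun x => by have := hcon x; omega)
    obtain ⟨g1, g2⟩ := hf.proper (fun i => hcmem i (ε i))
    exact hno ⟨f, g1, g2, hf'⟩
  choose X hX using hex
  have hflip : ∀ ε i b, X (Function.update ε i b) ≠ X ε →
      L ⟨i, none⟩ = {X ε, X (Function.update ε i b)} := by
    intro ε i b hne
    have hb : b = !(ε i) := by
      apply eq_not_of_ne
      intro hb
      rw [hb, Function.update_eq_self] at hne
      exact hne rfl
    by_contra hcon
    have hk : ¬ (X ε = col i b ∧ X (Function.update ε i b) = col i (ε i)) := by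
      rintro ⟨e1, e2⟩
      apply hcon
      rw [e1, e2, pair_comm, hlist' i (ε i), hb]
    have h1 := hX ε
    have h2 := hX (Function.update ε i b)
    have h3 : ∑ j, forced L j (col j (ε j)) (X ε) +
        ∑ j, forced L j (col j (Function.update ε i b j)) (X (Function.update ε i b)) ≤
        ∑ j, (m j + 1) := by
      rw [← sum_add_distrib]
      refine sum_le_sum fun j _ => ?_
      by_cases hj : j = i
      · subst hj
        rw [Function.update_self]
        exact forced_diff hL (hm j) (by rw [hb]; exact hcne j _) hk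
      · rw [Function.update_of_ne hj]
        exact forced_same (Ne.symm hne)
    omega
  have hanti : ∀ ε ε' : ι → Bool, (∀ i, ε' i = !(ε i)) → X ε' ≠ X ε := by
    intro ε ε' hε heq
    have h1 := hX ε
    have h2 := hX ε'
    have h3 : ∑ j, forced L j (col j (ε j)) (X ε) +
        ∑ j, forced L j (col j (ε' j)) (X ε') ≤ ∑ j, (m j + 1) := by
      rw [← sum_add_distrib]
      refine sum_le_sum fun j _ => ?_
      rw [hε j, heq]
      refine forced_diff hL (hm j) (hcne j _) ?_
      rintro ⟨e1, e2⟩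
      exact hcne j (ε j) (e2.symm.trans e1)
    omega
  -- the two classes
  obtain ⟨x, hx⟩ : ∃ x, X (fun _ => true) = x := ⟨_, rfl⟩
  obtain ⟨y, hy⟩ : ∃ y, X (fun _ => false) = y := ⟨_, rfl⟩
  have hxy : x ≠ y := by
    rw [← hx, ← hy]
    exact (hanti (fun _ => true) (fun _ => false) (fun _ => rfl)).symm
  have htwo : ∀ ε, X ε = x ∨ X ε = y := by
    intro ε
    by_contra hcon
    push Not at hcon
    exact no_three (lst := fun i => L ⟨i, none⟩) hflip hx hy rfl hxy hcon.1.symm hcon.2.symm
  set D : Finset ι := univ.filter fun i => L ⟨i, none⟩ = {x, y} with hD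
  have hout : ∀ ε ε' : ι → Bool, (∀ i ∈ D, ε i = ε' i) → X ε' = X ε := by
    intro ε ε' h
    refine walk (P := fun t => t = X ε) (K := fun i => L ⟨i, none⟩ ≠ {x, y}) ?_ (ε := ε)
      (fun i hi => h i (by rw [hD, mem_filter]; exact ⟨mem_univ _, not_not.1 hi⟩)) rfl
    intro ε₁ i b hK h1
    by_contra hne
    have h2 := hflip ε₁ i b (by rw [h1]; exact hne)
    apply hK
    rw [h2]
    have hne' : X ε₁ ≠ X (Function.update ε₁ i b) := by rw [h1]; exact Ne.symm hne
    rcases htwo ε₁ with e1 | e1 <;> rcases htwo (Function.update ε₁ i b) with e2 | e2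
    · exact absurd (e1.trans e2.symm) hne'
    · rw [e1, e2]
    · rw [e1, e2, pair_comm]
    · exact absurd (e1.trans e2.symm) hne'
  obtain ⟨A, hAD, hA⟩ := H D
  have hsel : ∀ i ∈ D, ∀ c, (c = x ∨ c = y) → col i (decide (col i true = c)) = c := by
    intro i hi c hc
    rw [hD, mem_filter] at hi
    by_cases h : col i true = c
    · rw [decide_eq_true h]; exact h
    · rw [decide_eq_false h]
      have hc' : c ∈ L ⟨i, none⟩ := by
        rw [hi.2]
        rcases hc with rfl | rfl <;> simp
      rw [hlist, mem_insert, mem_singleton] at hc'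
      rcases hc' with h' | h'
      · exact absurd h'.symm h
      · exact h'.symm
  let u : ι → Bool := fun i => if i ∈ A then decide (col i true = y) else decide (col i true = x)
  have huA : ∀ i ∈ A, col i (u i) = y := by
    intro i hi
    simp only [u, if_pos hi]
    exact hsel i (hAD hi) y (Or.inr rfl)
  have huD : ∀ i ∈ D, i ∉ A → col i (u i) = x := by
    intro i hi hi'
    simp only [u, if_neg hi']
    exact hsel i hi x (Or.inl rfl)
  let e₂ : ι → Bool := fun i => if i ∈ D then u i else !(u i)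
  let e₃ : ι → Bool := fun i => !(u i)
  let e₄ : ι → Bool := fun i => !(e₂ i)
  have X2 : X e₂ = X u := hout u e₂ (fun i hi => by simp only [e₂, if_pos hi])
  have X3 : X e₃ ≠ X u := hanti u e₃ (fun i => rfl)
  have X4 : X e₄ = X e₃ := hout e₃ e₄ (fun i hi => by simp only [e₃, e₄, e₂, if_pos hi])
  obtain ⟨s, hs⟩ : ∃ s, X u = s := ⟨_, rfl⟩
  obtain ⟨t, ht⟩ : ∃ t, X e₃ = t := ⟨_, rfl⟩
  have hst : s ≠ t := by rw [← hs, ← ht]; exact X3.symm
  have hDst : ∀ i ∈ D, L ⟨i, none⟩ = {s, t} := by
    intro i hi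
    rw [hD, mem_filter] at hi
    rw [hi.2]
    have h1 := htwo u
    have h2 := htwo e₃
    rw [hs] at h1
    rw [ht] at h2
    rcases h1 with e1 | e1 <;> rcases h2 with e2 | e2
    · exact absurd (e1.trans e2.symm) hst
    · rw [e1, e2]
    · rw [e1, e2, pair_comm]
    · exact absurd (e1.trans e2.symm) hst
  have g1 := hX u
  have g2 := hX e₂
  have g3 := hX e₃
  have g4 := hX e₄
  rw [X2, hs] at g2
  rw [X4, ht] at g4
  rw [hs] at g1
  rw [ht] at g3
  set φ : ι → ℕ := fun i => forced L i (col i (u i)) s + forced L i (col i (e₂ i)) s +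
    forced L i (col i (e₃ i)) t + forced L i (col i (e₄ i)) t with hφ
  have hsum : 4 * (T + 1) ≤ ∑ i, φ i := by
    simp only [hφ, sum_add_distrib]
    omega
  have b1 : ∀ i ∈ Dᶜ, φ i ≤ m i + 1 := by
    intro i hi
    rw [mem_compl] at hi
    simp only [hφ, e₂, e₃, e₄, if_neg hi, Bool.not_not]
    have h := forced_four (i := i) (a := col i (u i)) (b := col i (!(u i))) (x := s) (y := t) hL
      (hcne i _) hst ?_ ?_
    · omega
    · rintro ⟨e1, e2⟩
      apply hi
      rw [hD, mem_filter]
      refine ⟨mem_univ _, ?_⟩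
      rw [hlist' i (u i), ← e1, ← e2]
      have h1 := htwo u
      have h2 := htwo e₃
      rw [hs] at h1
      rw [ht] at h2
      rcases h1 with e1 | e1 <;> rcases h2 with e2 | e2
      · exact absurd (e1.trans e2.symm) hst
      · rw [e1, e2, pair_comm]
      · rw [e1, e2]
      · exact absurd (e1.trans e2.symm) hst
    · rintro ⟨e1, e2⟩
      apply hi
      rw [hD, mem_filter]
      refine ⟨mem_univ _, ?_⟩
      rw [hlist' i (u i), ← e1, ← e2]
      have h1 := htwo u
      have h2 := htwo e₃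
      rw [hs] at h1
      rw [ht] at h2
      rcases h1 with e1 | e1 <;> rcases h2 with e2 | e2
      · exact absurd (e1.trans e2.symm) hst
      · rw [e1, e2]
      · rw [e1, e2, pair_comm]
      · exact absurd (e1.trans e2.symm) hst
  have hother : ∀ i ∈ D, (col i (u i) = s → col i (!(u i)) = t) ∧
      (col i (u i) = t → col i (!(u i)) = s) := by
    intro i hi
    have h1 := hDst i hi
    have h2 : col i (!(u i)) ∈ L ⟨i, none⟩ := hcmem i _
    rw [h1, mem_insert, mem_singleton] at h2
    have h3 := hcne i (u i)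
    constructor
    · intro h
      rcases h2 with h2 | h2
      · exact absurd (h.trans h2.symm) h3
      · exact h2
    · intro h
      rcases h2 with h2 | h2
      · exact h2
      · exact absurd (h.trans h2.symm) h3
  have b2 : ∀ i ∈ D, col i (u i) = s → φ i ≤ 4 := by
    intro i hi h
    have h' := (hother i hi).1 h
    simp only [hφ, e₂, e₃, e₄, if_pos hi, h, h', forced_self hL]
    omega
  have b3 : ∀ i ∈ D, col i (u i) = t → φ i ≤ 4 * m i := by
    intro i hi h
    have h' := (hother i hi).2 h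
    simp only [hφ, e₂, e₃, e₄, if_pos hi, h, h']
    have h1 := forced_le (L := L) (i := i) (m := m) (Ne.symm hst)
    have h2 := forced_le (L := L) (i := i) (m := m) hst
    omega
  have hsplit : ∑ i, φ i = ∑ i ∈ A, φ i + ∑ i ∈ D \ A, φ i + ∑ i ∈ Dᶜ, φ i := by
    rw [← sum_add_sum_compl D φ, ← sum_sdiff hAD]
    ring
  have hsplit' : ∑ i, (m i + 1) = ∑ i ∈ A, (m i + 1) + ∑ i ∈ D \ A, (m i + 1) +
      ∑ i ∈ Dᶜ, (m i + 1) := by
    rw [← sum_add_sum_compl D (fun i => m i + 1), ← sum_sdiff hAD]
    ring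
  have hc1 : ∑ i ∈ Dᶜ, φ i ≤ ∑ i ∈ Dᶜ, (m i + 1) := sum_le_sum b1
  rw [hsplit'] at hN
  rw [hsplit] at hsum
  have z1 : ∑ i ∈ A, (m i + 1) = ∑ i ∈ A, m i + A.card := by
    rw [sum_add_distrib]; simp
  have z2 : ∑ i ∈ D \ A, (m i + 1) = ∑ i ∈ D \ A, m i + (D \ A).card := by
    rw [sum_add_distrib]; simp
  have z3 : ∑ i ∈ A, ((m i : ℤ) - 1) = ((∑ i ∈ A, m i : ℕ) : ℤ) - A.card := by
    rw [sum_sub_distrib]; push_cast; simp
  have z4 : ∑ i ∈ D \ A, ((m i : ℤ) - 1) = ((∑ i ∈ D \ A, m i : ℕ) : ℤ) - (D \ A).card := by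
    rw [sum_sub_distrib]; push_cast; simp
  have z5 : ∑ i ∈ Dᶜ, ((m i : ℤ) + 1) = ((∑ i ∈ Dᶜ, (m i + 1) : ℕ) : ℤ) := by
    push_cast; rfl
  rw [z3, z4, z5] at hA
  have hA1 := (abs_le.1 (le_refl |((∑ i ∈ A, m i : ℕ) : ℤ) - A.card -
    (((∑ i ∈ D \ A, m i : ℕ) : ℤ) - (D \ A).card)|)).1
  have hA2 := (abs_le.1 (le_refl |((∑ i ∈ A, m i : ℕ) : ℤ) - A.card -
    (((∑ i ∈ D \ A, m i : ℕ) : ℤ) - (D \ A).card)|)).2
  have hcase : (s = x ∧ t = y) ∨ (s = y ∧ t = x) := by
    have h1 := htwo u
    have h2 := htwo e₃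
    rw [hs] at h1
    rw [ht] at h2
    rcases h1 with e1 | e1 <;> rcases h2 with e2 | e2
    · exact absurd (e1.trans e2.symm) hst
    · exact Or.inl ⟨e1, e2⟩
    · exact Or.inr ⟨e1, e2⟩
    · exact absurd (e1.trans e2.symm) hst
  rcases hcase with ⟨es, et⟩ | ⟨es, et⟩
  · have c1 : ∑ i ∈ A, φ i ≤ 4 * ∑ i ∈ A, m i := by
      rw [mul_sum]
      exact sum_le_sum fun i hi => b3 i (hAD hi) (by rw [huA i hi, et])
    have c2 : ∑ i ∈ D \ A, φ i ≤ 4 * (D \ A).card := by
      rw [mul_comm, ← smul_eq_mul, ← sum_const]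
      refine sum_le_sum fun i hi => ?_
      rw [mem_sdiff] at hi
      exact b2 i hi.1 (by rw [huD i hi.1 hi.2, es])
    omega
  · have c1 : ∑ i ∈ D \ A, φ i ≤ 4 * ∑ i ∈ D \ A, m i := by
      rw [mul_sum]
      refine sum_le_sum fun i hi => ?_
      rw [mem_sdiff] at hi
      exact b3 i hi.1 (by rw [huD i hi.1 hi.2, et])
    have c2 : ∑ i ∈ A, φ i ≤ 4 * A.card := by
      rw [mul_comm, ← smul_eq_mul, ← sum_const]
      exact sum_le_sum fun i hi => b2 i (hAD hi) (by rw [huA i hi, es])
    omega

end criterion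

end Pool.Agent.Lib.MP_5b98da_lc
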