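import Pool.Agent.Lib.MP_5b98da_lc.Reduce
import Pool.Agent.Lib.CookLevin.Main
import Pool.Agent.Lib.CookLevin.Raw

/-!
The instance as a word, in polynomial time.
-/

namespace Pool.Agent.Lib.MP_5b98da_lc

open Pool.Agent.CookLevin Pool.Agent.PolyTime

/-! ### Codes of tuples -/

/-- Self-delimiting form of a word. -/
def sd (l : List Bool) : List Bool := l.flatMap (fun b => [true, b]) ++ [false]

theorem sd_cons (b : Bool) (l : List Bool) : sd (b :: l) = true :: b :: sd l := rfl

theorem sd_inj : ∀ (l l' r r' : List Bool), sd l ++ r = sd l' ++ r' → l = l' ∧ r = r' := by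
  intro l
  induction l with
  | nil =>
    intro l' r r' h
    cases l' with
    | nil => exact ⟨rfl, by simpa [sd] using h⟩
    | cons b l' =>
      rw [sd_cons] at h
      simp [sd] at h
  | cons b l ih =>
    intro l' r r' h
    cases l' with
    | nil =>
      rw [sd_cons] at h
      simp [sd] at h
    | cons b' l' =>
      rw [sd_cons, sd_cons, List.cons_append, List.cons_append, List.cons_append,
        List.cons_append, List.cons.injEq, List.cons.injEq] at h
      obtain ⟨h1, h2⟩ := ih l' r r' h.2.2
      exact ⟨by rw [h.2.1, h1], h2⟩

theorem bits_inj {m n : ℕ} (h : m.bits = n.bits) : m = n := by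
  have key : ∀ k : ℕ, k.bits.foldr (fun b a => Nat.bit b a) 0 = k := by
    intro k
    induction k using Nat.binaryRec' with
    | zero => simp
    | bit b k hk ih => rw [Nat.bits_append_bit k b hk, List.foldr_cons, ih]
  rw [← key m, ← key n, h]

theorem encodeTuple_inj : ∀ ms ns : List ℕ, encodeTuple ms = encodeTuple ns → ms = ns := by
  intro ms
  induction ms with
  | nil =>
    intro ns h
    cases ns with
    | nil => rfl
    | cons n ns => simp [encodeTuple, encodeNat] at h
  | cons m ms ih =>
    intro ns h
    cases ns with
    | nil => simp [encodeTuple, encodeNat] at h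
    | cons n ns =>
      have h' : sd m.bits ++ encodeTuple ms = sd n.bits ++ encodeTuple ns := h
      obtain ⟨h1, h2⟩ := sd_inj _ _ _ _ h'
      rw [bits_inj h1, ih ns h2]

/-! ### Binary digits of the star sizes -/

section
variable {α : Type} [DecidableEq α]

/-- The four binary digits of a digit at most 3. -/
def blk (d : ℕ) : List Bool :=
  if d = 0 then [false, false, false, false] else if d = 1 then [true, false, false, false]
  else if d = 2 then [false, true, false, false] else [true, true, false, false]

theorem bits_add (d n : ℕ) (hd : d ≤ 3) (hn : n ≠ 0) : (d + 16 * n).bits = blk d ++ n.bits := by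
  have h0 : ∀ k, k ≠ 0 → ∀ b, (Nat.bit b k).bits = b :: k.bits := fun k hk b =>
    Nat.bits_append_bit k b fun h => absurd h hk
  have h1 : Nat.bit false n ≠ 0 := by rw [Nat.bit_val]; simpa using hn
  have h2 : Nat.bit false (Nat.bit false n) ≠ 0 := by
    rw [Nat.bit_val false (Nat.bit false n)]; simpa using h1
  have h3 : ∀ b, Nat.bit b (Nat.bit false (Nat.bit false n)) ≠ 0 := by
    intro b
    rw [Nat.bit_val b]
    omega
  have key : ∀ b c : Bool, (Nat.bit b (Nat.bit c (Nat.bit false (Nat.bit false n)))).bits =
      b :: c :: false :: false :: n.bits := by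
    intro b c
    rw [h0 _ (h3 c), h0 _ h2, h0 _ h1, h0 _ hn]
  have e : ∀ b c : Bool, Nat.bit b (Nat.bit c (Nat.bit false (Nat.bit false n))) =
      b.toNat + 2 * c.toNat + 16 * n := by
    intro b c
    simp only [Nat.bit_val, Bool.toNat_false]
    ring
  obtain rfl | rfl | rfl | rfl : d = 0 ∨ d = 1 ∨ d = 2 ∨ d = 3 := by omega
  · have := key false false
    rw [e] at this
    simpa [blk] using this
  · have := key true false
    rw [e] at this
    simpa [blk] using this
  · have := key false true
    rw [e] at this
    simpa [blk] using this
  · have := key true true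
    rw [e] at this
    simpa [blk] using this

theorem dg_le (g : Cls α) (b : El α) : dg g b ≤ 3 := by
  cases b with
  | var x =>
    simp only [dg, occ]
    split <;> split <;> split <;> omega
  | slack h =>
    simp only [dg]
    split <;> omega
  | dum => simp [dg]
  | three => simp [dg]

/-- The two leading binary digits. -/
def kb : El α → List Bool
  | .three => [true, true]
  | _ => [false, true]

theorem val_ne_zero (J : List (Cls α)) (b : El α) : val J b ≠ 0 := by
  induction J with
  | nil => cases b <;> simp [val, kd]
  | cons g J ih =>
    have h1 : val (g :: J) b = dg g b + 16 * val J b := rfl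
    rw [h1]
    omega

theorem val_bits (J : List (Cls α)) (b : El α) :
    (val J b).bits = J.flatMap (fun g => blk (dg g b)) ++ kb b := by
  induction J with
  | nil =>
    have h2 : (2 : ℕ).bits = [false, true] := by
      have := Nat.bits_append_bit 1 false (by simp)
      rw [Nat.one_bits] at this
      exact this
    have h3 : (3 : ℕ).bits = [true, true] := by
      have := Nat.bits_append_bit 1 true (by simp)
      rw [Nat.one_bits] at this
      exact this
    cases b
    · exact h2
    · exact h2
    · exact h2
    · exact h3
  | cons g J ih =>
    have h1 : val (g :: J) b = dg g b + 16 * val J b := rfl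
    rw [h1, bits_add _ _ (dg_le g b) (val_ne_zero J b), ih, List.flatMap_cons, List.append_assoc]

theorem num_bits (J : List (Cls α)) (b : El α) :
    (num J b).bits = true :: (J.flatMap (fun g => blk (dg g b)) ++ kb b) := by
  have h := Nat.bits_append_bit (val J b) true (fun h => absurd h (val_ne_zero J b))
  rw [Nat.bit_val, Bool.toNat_true] at h
  rw [num, h, val_bits]

/-- The word of one element. -/
def elWord (J : List (Cls α)) (b : El α) : List Bool :=
  sd (true :: (J.flatMap (fun g => blk (dg g b)) ++ kb b))

/-- The word of an instance. -/
def word (I : List (α × (α × α))) : List Bool := (els I).flatMap (elWord I.zipIdx)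

theorem word_eq (I : List (α × (α × α))) : word I = encodeTuple ((els I).map (num I.zipIdx)) := by
  unfold word encodeTuple
  rw [List.flatMap_map]
  congr 1
  funext b
  unfold elWord encodeNat sd
  rw [num_bits]

theorem mem_iff (b : ℕ) (hb : b ≤ 1) (I : List (α × (α × α))) :
    NAESat I ↔ word I ∈ starsEquitable2Choosability b := by
  rw [reduction, word_eq]
  constructor
  · intro h
    refine ⟨_, ?_, rfl, h⟩
    intro m hm
    rw [List.mem_map] at hm
    obtain ⟨b', _, rfl⟩ := hm
    unfold num
    omega
  · rintro ⟨ms, _, h1, h2⟩
    rw [encodeTuple_inj _ _ h1]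
    exact h2

end

/-! ### Polynomial time -/

section ptime
variable {α σ : Type} [DecidableEq α] [Enc α] [EncInj α] [Enc σ]

theorem ptime_dd {f : σ → List α} (hf : PTime f) : PTime (fun s => dd (f s)) := by
  unfold dd
  obtain ⟨F, hF, hFm, hFs⟩ := hf.size_le
  refine PTime.foldl (h := fun (_ : σ) (acc : List α) (x : α) => if x ∈ acc then acc else x :: acc)
    (B := fun n => F n + 1) hf (PTime.const []) ?_ (hF.add (PBd.const 1)) ?_
  · have h1 : PTime (fun p : σ × (List α × α) => p.2.1) := PTime.fst.comp PTime.snd
    have h2 : PTime (fun p : σ × (List α × α) => p.2.2) := PTime.snd.comp PTime.snd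
    refine (PTime.ite (PTime.mem h2 h1) h1 (h2.cons h1)).of_eq fun p => ?_
    by_cases h : p.2.2 ∈ p.2.1 <;> simp [h]
  · intro a l₁ l₂ h
    have key : ∀ (l acc : List α), size (enc (l.foldl
        (fun acc x => if x ∈ acc then acc else x :: acc) acc)) + 1 ≤
        size (enc acc) + size (enc l) := by
      intro l
      induction l with
      | nil =>
        intro acc
        have : size (enc ([] : List α)) = 1 := rfl
        rw [List.foldl_nil, this]
      | cons x l ih =>
        intro acc
        rw [List.foldl_cons, size_lcons]
        by_cases hx : x ∈ acc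
        · rw [if_pos hx]
          have := ih acc
          omega
        · rw [if_neg hx]
          have := ih (x :: acc)
          rw [size_lcons] at this
          omega
    have h1 := key l₁ []
    have h2 : size (enc ([] : List α)) = 1 := rfl
    have h3 := size_sublist (List.sublist_append_left l₁ l₂)
    rw [← h] at h3
    have h4 := hFs a
    change size (enc (l₁.foldl (fun acc x => if x ∈ acc then acc else x :: acc) [])) ≤ F _ + 1
    omega

theorem ptime_sd {f : σ → List Bool} (hf : PTime f) : PTime (fun s => sd (f s)) := by
  unfold sd
  refine PTime.append (PTime.flatMap (g := fun (_ : σ) (b : Bool) => [true, b]) hf ?_)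
    (PTime.const _)
  exact (PTime.const true).cons (PTime.snd.cons (PTime.const []))

/-- Digits of a variable. -/
def occBits (x : α) (T : α × (α × α)) : List Bool :=
  bif decide (x = T.1) then
    (bif decide (x = T.2.1) then
      (bif decide (x = T.2.2) then [true, true, false, false] else [false, true, false, false])
    else
      (bif decide (x = T.2.2) then [false, true, false, false] else [true, false, false, false]))
  else
    (bif decide (x = T.2.1) then
      (bif decide (x = T.2.2) then [false, true, false, false] else [true, false, false, false])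
    else
      (bif decide (x = T.2.2) then [true, false, false, false] else [false, false, false, false]))

omit [Enc α] [EncInj α] in
theorem occBits_eq (x : α) (T : α × (α × α)) : occBits x T = blk (occ x T) := by
  have key : ∀ a b c : Bool, (bif a then
      (bif b then (bif c then [true, true, false, false] else [false, true, false, false])
      else (bif c then [false, true, false, false] else [true, false, false, false]))
    else
      (bif b then (bif c then [false, true, false, false] else [true, false, false, false])
      else (bif c then [true, false, false, false] else [false, false, false, false]))) =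
      blk ((if a = true then 1 else 0) + (if b = true then 1 else 0) +
        (if c = true then 1 else 0)) := by
    intro a b c
    cases a <;> cases b <;> cases c <;> rfl
  have h := key (decide (x = T.1)) (decide (x = T.2.1)) (decide (x = T.2.2))
  simp only [decide_eq_true_eq] at h
  exact h

theorem ptime_occBits {f : σ → α} {g : σ → α × (α × α)} (hf : PTime f) (hg : PTime g) :
    PTime (fun s => occBits (f s) (g s)) := by
  unfold occBits
  have h1 : PTime (fun s => decide (f s = (g s).1)) := PTime.eq hf (PTime.fst.comp hg)
  have h2 : PTime (fun s => decide (f s = (g s).2.1)) :=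
    PTime.eq hf (PTime.fst.comp (PTime.snd.comp hg))
  have h3 : PTime (fun s => decide (f s = (g s).2.2)) :=
    PTime.eq hf (PTime.snd.comp (PTime.snd.comp hg))
  exact PTime.cond h1 (PTime.cond h2 (PTime.cond h3 (PTime.const _) (PTime.const _))
    (PTime.cond h3 (PTime.const _) (PTime.const _)))
    (PTime.cond h2 (PTime.cond h3 (PTime.const _) (PTime.const _))
    (PTime.cond h3 (PTime.const _) (PTime.const _)))

theorem ptime_varWord {J : σ → List (Cls α)} {x : σ → α} (hJ : PTime J) (hx : PTime x) :
    PTime (fun s => elWord (J s) (El.var (x s))) := by
  have h : PTime (fun s => (J s).flatMap (fun g => occBits (x s) g.1)) :=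
    PTime.flatMap (g := fun s (g : Cls α) => occBits (x s) g.1) hJ
      (ptime_occBits (hx.comp PTime.fst) (PTime.fst.comp PTime.snd))
  refine (ptime_sd ((PTime.const true).cons (h.append (PTime.const [false, true])))).of_eq
    fun s => ?_
  unfold elWord
  simp only [occBits_eq]
  rfl

omit [EncInj α] in
theorem ptime_slackWord {J : σ → List (Cls α)} {x : σ → Cls α} (hJ : PTime J) (hx : PTime x) :
    PTime (fun s => elWord (J s) (El.slack (x s))) := by
  have h : PTime (fun s => (J s).flatMap (fun g => bif decide ((x s).2 = g.2) then
      [true, false, false, false] else [false, false, false, false])) :=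
    PTime.flatMap (g := fun s (g : Cls α) => bif decide ((x s).2 = g.2) then
      [true, false, false, false] else [false, false, false, false]) hJ
      (PTime.cond (PTime.eq (PTime.snd.comp (hx.comp PTime.fst)) (PTime.snd.comp PTime.snd))
        (PTime.const _) (PTime.const _))
  refine (ptime_sd ((PTime.const true).cons (h.append (PTime.const [false, true])))).of_eq
    fun s => ?_
  unfold elWord
  congr 3
  congr 1
  funext g
  simp only [dg]
  by_cases h : (x s).2 = g.2 <;> simp [h, blk]

omit [EncInj α] in
theorem ptime_dumWord {J : σ → List (Cls α)} (hJ : PTime J) :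
    PTime (fun s => elWord (J s) (El.dum : El α)) := by
  have h : PTime (fun s => (J s).flatMap (fun _ => [false, false, false, false])) :=
    PTime.flatMap (g := fun s (g : Cls α) => [false, false, false, false]) hJ (PTime.const _)
  refine (ptime_sd ((PTime.const true).cons (h.append (PTime.const [false, true])))).of_eq
    fun s => ?_
  rfl

omit [EncInj α] in
theorem ptime_threeWord {J : σ → List (Cls α)} (hJ : PTime J) :
    PTime (fun s => elWord (J s) (El.three : El α)) := by
  have h : PTime (fun s => (J s).flatMap (fun _ => [false, false, false, false])) :=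
    PTime.flatMap (g := fun s (g : Cls α) => [false, false, false, false]) hJ (PTime.const _)
  refine (ptime_sd ((PTime.const true).cons (h.append (PTime.const [true, true])))).of_eq
    fun s => ?_
  rfl

theorem ptime_vars {f : σ → List (α × (α × α))} (hf : PTime f) :
    PTime (fun s => vars (f s)) := by
  unfold vars
  refine ptime_dd ?_
  refine PTime.flatMap (g := fun (_ : σ) (T : α × (α × α)) => [T.1, T.2.1, T.2.2]) hf ?_
  have h0 : PTime (fun p : σ × (α × (α × α)) => p.2) := PTime.snd
  exact (PTime.fst.comp h0).cons ((PTime.fst.comp (PTime.snd.comp h0)).cons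
    ((PTime.snd.comp (PTime.snd.comp h0)).cons (PTime.const [])))

theorem ptime_word {f : σ → List (α × (α × α))} (hf : PTime f) : PTime (fun s => word (f s)) := by
  have hv := ptime_vars hf
  have hJ : PTime (fun s => (f s).zipIdx) := PTime.zipIdx hf
  have hd := ptime_dumWord hJ
  have ht := ptime_threeWord hJ
  have w1 : PTime (fun s => (vars (f s)).flatMap (fun x => elWord (f s).zipIdx (El.var x))) :=
    PTime.flatMap (g := fun s x => elWord (f s).zipIdx (El.var x)) hv
      (ptime_varWord (hJ.comp PTime.fst) PTime.snd)
  have w2 : PTime (fun s => ((f s).zipIdx).flatMap (fun x => elWord (f s).zipIdx (El.slack x))) :=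
    PTime.flatMap (g := fun s x => elWord (f s).zipIdx (El.slack x)) hJ
      (ptime_slackWord (hJ.comp PTime.fst) PTime.snd)
  have w3 : PTime (fun s => (vars (f s)).flatMap (fun _ => elWord (f s).zipIdx (El.dum : El α))) :=
    PTime.flatMap (g := fun s (_ : α) => elWord (f s).zipIdx (El.dum : El α)) hv
      (hd.comp PTime.fst)
  have w4 : PTime (fun s => ((f s).zipIdx).flatMap
      (fun _ => elWord (f s).zipIdx (El.dum : El α))) :=
    PTime.flatMap (g := fun s (_ : Cls α) => elWord (f s).zipIdx (El.dum : El α)) hJ
      (hd.comp PTime.fst)
  refine ((w1.append w2).append ((w3.append w4).append (hd.append (hd.append (hd.append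
    (hd.append (ht.append ht))))))).of_eq fun s => ?_
  unfold word els
  simp only [List.flatMap_append, List.flatMap_map, List.flatMap_cons, List.flatMap_nil,
    List.append_nil]

end ptime

/-- STARS EQUITABLE 2-CHOOSABILITY is NP-hard. -/
theorem npHard (b : ℕ) (hb : b ≤ 1) : NPHard (starsEquitable2Choosability b) := by
  intro L hL
  obtain ⟨F, hF, hF'⟩ := cook_levin hL
  classical
  refine ⟨fun x => word (nae3 (F x)), polyTimeComputable_of_ptime
    (ptime_word (ptime_nae3.comp hF)), fun x => ?_⟩
  rw [hF', nae3_iff, mem_iff b hb]

end Pool.Agent.Lib.MP_5b98da_lc
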